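import Pool.Agent.TH567.PR.Trace

/-! Finitely many characters in each degree. -/

namespace Pool.Agent.TH567.PR

open Matrix Polynomial

universe u

/-- a family of representations as one representation over the ring of functions -/
lemma exists_family {Γ : Type} [Group Γ] {K : Type u} [Field K] {m : ℕ} {Ω : Type u}
    (r : Ω → (Γ →* GL (Fin m) K)) :
    ∃ σ : Γ →* GL (Fin m) (Ω → K), ∀ γ i j ω, (σ γ) i j ω = (r ω γ) i j := by
  let Ψ₀ : Γ →* Matrix (Fin m) (Fin m) (Ω → K) :=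
    { toFun := fun g => Matrix.of fun i j => fun ω => r ω g i j
      map_one' := by
        ext i j ω
        change (r ω 1) i j = (1 : Matrix (Fin m) (Fin m) (Ω → K)) i j ω
        rw [map_one]
        change (1 : Matrix (Fin m) (Fin m) K) i j = _
        rw [Matrix.one_apply, Matrix.one_apply]
        split_ifs <;> rfl
      map_mul' := fun a b => by
        ext i j ω
        change (r ω (a * b)) i j = _
        rw [map_mul]
        change ((r ω a).val * (r ω b).val) i j = _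
        rw [Matrix.mul_apply, Matrix.mul_apply, Finset.sum_apply]
        rfl }
  exact ⟨Ψ₀.toHomUnits, fun γ i j ω => rfl⟩

section

variable {Γ : Type} [Group Γ] [hΓ : Group.FG Γ] {m : ℕ}
  (hpos : ∀ (A : Type u) [CommRing A] (c : ℕ), c ≠ 0 → (c : A) = 0 →
      ∀ ρ : Γ →* GL (Fin m) A, Finite ρ.range)

include hpos

omit hΓ in
/-- over a domain of positive characteristic the trace is integral -/
lemma trace_integral_domain {D : Type u} [CommRing D] [IsDomain D] (c : ℕ) (hc : c ≠ 0)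
    (hcD : (c : D) = 0) (ρ : Γ →* GL (Fin m) D) (γ : Γ) :
    IsIntegral ℤ (ρ γ : Matrix (Fin m) (Fin m) D).trace := by
  let F := FractionRing D
  let f : D →+* F := algebraMap D F
  let ρF : Γ →* GL (Fin m) F := (GeneralLinearGroup.map f).comp ρ
  have hfin : Finite ρF.range := hpos F c hc (by
    have := congrArg f hcD
    simpa using this) ρF
  have hord : (ρF γ) ^ Nat.card ρF.range = 1 := by
    have := pow_card_eq_one' (x := (⟨ρF γ, _, rfl⟩ : ρF.range))
    exact congrArg Subtype.val this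
  have hord' : ((ρF γ : Matrix (Fin m) (Fin m) F)) ^ Nat.card ρF.range = 1 := by
    rw [← Units.val_pow_eq_pow_val, hord, Units.val_one]
  have h1 := trace_integral _ _ Nat.card_pos.ne' hord'
  have h2 : (ρF γ : Matrix (Fin m) (Fin m) F).trace =
      f (ρ γ : Matrix (Fin m) (Fin m) D).trace := by
    rw [Matrix.trace, Matrix.trace, map_sum]
    rfl
  rw [h2] at h1
  obtain ⟨g, hmon, hg⟩ := h1
  refine ⟨g, hmon, ?_⟩
  apply IsFractionRing.injective D F
  change f _ = f 0
  rw [map_zero, Polynomial.hom_eval₂, ← hg]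
  congr 1
  exact RingHom.ext_int _ _

/-- the value of the trace satisfies one of finitely many equations -/
lemma exists_poly {K : Type u} [Field K] {D : Type u} [CommRing D] [IsDomain D]
    [Algebra.FiniteType ℤ D] (hDK : ∀ p : ℕ, (p : K) = 0 → (p : D) = 0)
    (ρ : Γ →* GL (Fin m) D) (γ : Γ) :
    ∃ g : ℤ[X], g.map (Int.castRingHom K) ≠ 0 ∧
      Polynomial.aeval (ρ γ : Matrix (Fin m) (Fin m) D).trace g = 0 := by
  obtain ⟨c, hc⟩ := CharP.exists D
  rcases Nat.eq_zero_or_pos c with rfl | hcpos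
  · have h0 : CharZero D := CharP.charP_to_charZero D
    obtain ⟨g, hg, h⟩ := trace_algebraic hpos ρ γ
    refine ⟨g, ?_, h⟩
    have hK : CharZero K := by
      obtain ⟨p, hp⟩ := CharP.exists K
      rcases Nat.eq_zero_or_pos p with rfl | hppos
      · exact CharP.charP_to_charZero K
      · have := hDK p (CharP.cast_eq_zero K p)
        rw [Nat.cast_eq_zero] at this
        omega
    rw [Ne, Polynomial.map_eq_zero_iff (RingHom.injective_int (Int.castRingHom K))]
    exact hg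
  · obtain ⟨g, hmon, h⟩ := trace_integral_domain hpos c hcpos.ne' (CharP.cast_eq_zero D c) ρ γ
    exact ⟨g, (hmon.map _).ne_zero, h⟩

/-- the finitely many equations -/
lemma exists_poly_quot {K : Type u} [Field K] {R D : Type u} [CommRing R] [CommRing D]
    [IsDomain D] [hR : Algebra.FiniteType ℤ R] (hRK : ∀ p : ℕ, (p : K) = 0 → (p : R) = 0)
    (ρ₀ : Γ →* GL (Fin m) R) (γ : Γ) (q : R →+* D) (hq : Function.Surjective q) :
    ∃ g : ℤ[X], g.map (Int.castRingHom K) ≠ 0 ∧
      q (Polynomial.aeval (ρ₀ γ : Matrix (Fin m) (Fin m) R).trace g) = 0 := by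
  have hft : Algebra.FiniteType ℤ D :=
    Algebra.FiniteType.of_surjective q.toIntAlgHom hq
  obtain ⟨g, hg, h⟩ := exists_poly hpos (K := K) (D := D) (fun p hp => by
    have := congrArg q (hRK p hp)
    simpa using this) ((GeneralLinearGroup.map q).comp ρ₀) γ
  refine ⟨g, hg, ?_⟩
  have h2 : (((GeneralLinearGroup.map q).comp ρ₀) γ : Matrix (Fin m) (Fin m) D).trace =
      q (ρ₀ γ : Matrix (Fin m) (Fin m) R).trace := by
    rw [Matrix.trace, Matrix.trace, map_sum]
    rfl
  rw [h2] at h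
  have h3 : q (Polynomial.aeval (ρ₀ γ : Matrix (Fin m) (Fin m) R).trace g) =
      Polynomial.aeval (q (ρ₀ γ : Matrix (Fin m) (Fin m) R).trace) g := by
    rw [Polynomial.aeval_def, Polynomial.aeval_def, Polynomial.hom_eval₂]
    congr 1
    exact RingHom.ext_int _ _
  rw [h3, h]

/-- the finitely many equations -/
lemma exists_poly_prime {K : Type u} [Field K] {R : Type u} [CommRing R]
    [hR : Algebra.FiniteType ℤ R] (hRK : ∀ p : ℕ, (p : K) = 0 → (p : R) = 0)
    (ρ₀ : Γ →* GL (Fin m) R) (γ : Γ) (P : Ideal R) [hPp : P.IsPrime] :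
    ∃ g : ℤ[X], g.map (Int.castRingHom K) ≠ 0 ∧
      Polynomial.aeval (ρ₀ γ : Matrix (Fin m) (Fin m) R).trace g ∈ P := by
  obtain ⟨g, hg, h⟩ := exists_poly_quot hpos hRK ρ₀ γ (Ideal.Quotient.mk P)
    Ideal.Quotient.mk_surjective
  exact ⟨g, hg, Ideal.Quotient.eq_zero_iff_mem.1 h⟩

/-- each element takes only finitely many trace values -/
lemma values_finite {K : Type u} [Field K] (γ : Γ) :
    (Set.range fun ω : Γ →* GL (Fin m) K =>
      (ω γ : Matrix (Fin m) (Fin m) K).trace).Finite := by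
  classical
  obtain ⟨σ, hσ⟩ := exists_family (Γ := Γ) (K := K) (m := m)
    (Ω := (Γ →* GL (Fin m) K)) (fun ω => ω)
  obtain ⟨R, hR, ρ₀, hρ⟩ := fg_rep σ
  have hnoe : IsNoetherianRing R := Algebra.FiniteType.isNoetherianRing ℤ R
  have hfin : (minimalPrimes R).Finite := minimalPrimes.finite_of_isNoetherianRing R
  have key : ∀ P ∈ minimalPrimes R, ∃ g : ℤ[X], g.map (Int.castRingHom K) ≠ 0 ∧
      Polynomial.aeval (ρ₀ γ : Matrix (Fin m) (Fin m) R).trace g ∈ P := by
    intro P hP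
    have hPp : P.IsPrime := hP.1.1
    exact exists_poly_prime hpos (fun p hp => Subtype.ext (by
      funext ω
      simpa using hp)) ρ₀ γ P
  choose! g hg using key
  refine Set.Finite.subset (hfin.biUnion fun P _ =>
    (((g P).map (Int.castRingHom K)).roots.toFinset.finite_toSet)) ?_
  rintro _ ⟨ω, rfl⟩
  let ev : R →+* K := (Pi.evalRingHom (fun _ => K) ω).comp (R.val : R →+* _)
  have hker : (RingHom.ker ev).IsPrime := RingHom.ker_isPrime ev
  obtain ⟨P, hP, hPle⟩ := Ideal.exists_minimalPrimes_le (I := (⊥ : Ideal R))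
    (J := RingHom.ker ev) bot_le
  rw [Set.mem_iUnion₂]
  refine ⟨P, hP, ?_⟩
  have hev : ev (ρ₀ γ : Matrix (Fin m) (Fin m) R).trace =
      (ω γ : Matrix (Fin m) (Fin m) K).trace := by
    rw [Matrix.trace, Matrix.trace, map_sum]
    refine Finset.sum_congr rfl fun i _ => ?_
    have h1 := congrArg (fun c : GL (Fin m) ((Γ →* GL (Fin m) K) → K) => c i i ω) (hρ γ)
    simp only [GeneralLinearGroup.map_apply] at h1
    rw [hσ] at h1
    exact h1
  have h4 : ev (Polynomial.aeval (ρ₀ γ : Matrix (Fin m) (Fin m) R).trace (g P)) = 0 :=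
    hPle (hg P hP).2
  rw [Polynomial.aeval_def, Polynomial.hom_eval₂, hev] at h4
  have h5 : ev.comp (algebraMap ℤ R) = Int.castRingHom K := RingHom.ext_int _ _
  rw [h5] at h4
  rw [Finset.mem_coe, Multiset.mem_toFinset, Polynomial.mem_roots (hg P hP).1,
    Polynomial.IsRoot, Polynomial.eval_map]
  exact h4

end

/-- characters are determined by finitely many values -/
lemma finite_determination {Γ : Type} [Group Γ] [hΓ : Group.FG Γ] {m : ℕ} {K : Type u}
    [Field K] : ∃ S : Finset Γ, ∀ ω ω' : Γ →* GL (Fin m) K,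
      (∀ γ ∈ S, (ω γ : Matrix (Fin m) (Fin m) K).trace =
        (ω' γ : Matrix (Fin m) (Fin m) K).trace) →
      ∀ γ, (ω γ : Matrix (Fin m) (Fin m) K).trace =
        (ω' γ : Matrix (Fin m) (Fin m) K).trace := by
  classical
  let Ω := (Γ →* GL (Fin m) K) × (Γ →* GL (Fin m) K)
  obtain ⟨σ₁, hσ₁⟩ := exists_family (Γ := Γ) (K := K) (m := m) (Ω := Ω) (fun ω => ω.1)
  obtain ⟨σ₂, hσ₂⟩ := exists_family (Γ := Γ) (K := K) (m := m) (Ω := Ω) (fun ω => ω.2)
  obtain ⟨R₁, hR₁, ρ₁, hρ₁⟩ := fg_rep σ₁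
  obtain ⟨R₂, hR₂, ρ₂, hρ₂⟩ := fg_rep σ₂
  let R : Subalgebra ℤ (Ω → K) := R₁ ⊔ R₂
  have hR : Algebra.FiniteType ℤ R := (Subalgebra.fg_iff_finiteType R).1
    (((Subalgebra.fg_iff_finiteType R₁).2 hR₁).sup ((Subalgebra.fg_iff_finiteType R₂).2 hR₂))
  have hnoe : IsNoetherianRing R := Algebra.FiniteType.isNoetherianRing ℤ R
  have htr1 : ∀ γ, (σ₁ γ : Matrix (Fin m) (Fin m) (Ω → K)).trace ∈ R := fun γ => by
    rw [← hρ₁ γ, Matrix.trace]
    exact sum_mem fun i _ => (le_sup_left : R₁ ≤ R) ((ρ₁ γ) i i).2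
  have htr2 : ∀ γ, (σ₂ γ : Matrix (Fin m) (Fin m) (Ω → K)).trace ∈ R := fun γ => by
    rw [← hρ₂ γ, Matrix.trace]
    exact sum_mem fun i _ => (le_sup_right : R₂ ≤ R) ((ρ₂ γ) i i).2
  let δ : Γ → R := fun γ => ⟨_, htr1 γ⟩ - ⟨_, htr2 γ⟩
  have hfg : (Submodule.span R (Set.range δ)).FG := IsNoetherian.noetherian _
  obtain ⟨T', hT', hspan⟩ := (Submodule.fg_span_iff_fg_span_finset_subset _).1 hfg
  choose! c hc using (fun x (hx : x ∈ T') => hT' hx)
  refine ⟨T'.image c, fun ω ω' h γ => ?_⟩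
  let ev : R →+* K := (Pi.evalRingHom (fun _ => K) (ω, ω')).comp (R.val : R →+* _)
  have hev : ∀ γ, ev (δ γ) = (ω γ : Matrix (Fin m) (Fin m) K).trace -
      (ω' γ : Matrix (Fin m) (Fin m) K).trace := by
    intro γ
    change ((σ₁ γ : Matrix (Fin m) (Fin m) (Ω → K)).trace -
      (σ₂ γ : Matrix (Fin m) (Fin m) (Ω → K)).trace) (ω, ω') = _
    rw [Pi.sub_apply, Matrix.trace, Matrix.trace, Matrix.trace, Matrix.trace,
      Finset.sum_apply, Finset.sum_apply]
    congr 1
    · exact Finset.sum_congr rfl fun i _ => hσ₁ γ i i (ω, ω')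
    · exact Finset.sum_congr rfl fun i _ => hσ₂ γ i i (ω, ω')
  have hle : Submodule.span R (Set.range δ) ≤ RingHom.ker ev := by
    rw [hspan, Submodule.span_le]
    intro x hx
    have h1 : x = δ (c x) := (hc x hx).symm
    rw [h1]
    change ev (δ (c x)) = 0
    rw [hev, sub_eq_zero]
    exact h _ (Finset.mem_image_of_mem c hx)
  have h2 : ev (δ γ) = 0 := hle (Submodule.subset_span ⟨γ, rfl⟩)
  rw [hev, sub_eq_zero] at h2
  exact h2

/-- **Finitely many characters.** -/
theorem characters_finite {Γ : Type} [Group Γ] [hΓ : Group.FG Γ] {m : ℕ}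
    (hpos : ∀ (A : Type u) [CommRing A] (c : ℕ), c ≠ 0 → (c : A) = 0 →
      ∀ ρ : Γ →* GL (Fin m) A, Finite ρ.range) (K : Type u) [Field K] :
    {χ : Γ → K | ∃ ρ : Γ →* GL (Fin m) K, ∀ γ,
      χ γ = (ρ γ : Matrix (Fin m) (Fin m) K).trace}.Finite := by
  classical
  obtain ⟨S, hS⟩ := finite_determination (Γ := Γ) (m := m) (K := K)
  let r : (Γ → K) → (S → K) := fun χ s => χ s
  refine Set.Finite.of_finite_image (f := r) ?_ ?_
  · refine Set.Finite.subset (Set.Finite.pi' (fun s : S =>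
      values_finite hpos (K := K) (s : Γ))) ?_
    rintro _ ⟨χ, ⟨ρ, hρ⟩, rfl⟩ s
    exact ⟨ρ, (hρ s).symm⟩
  · rintro χ ⟨ρ, hρ⟩ χ' ⟨ρ', hρ'⟩ h
    funext γ
    rw [hρ, hρ']
    refine hS ρ ρ' (fun s hs => ?_) γ
    have := congrFun h ⟨s, hs⟩
    change χ s = χ' s at this
    rw [hρ, hρ'] at this
    exact this

end Pool.Agent.TH567.PR
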