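import Mathlib

/-! Elementary matrices in `SL_ι(ℤ)`: bounded reduction to a `2 × 2` block, generation. -/

namespace Pool.Agent.TH567.PR

open Matrix
open scoped Pointwise

variable {ι : Type*} [Fintype ι] [DecidableEq ι]

/-- The elementary matrices. -/
def T (ι : Type*) [Fintype ι] [DecidableEq ι] : Set (SpecialLinearGroup ι ℤ) :=
  {g | ∃ (i j : ι) (h : i ≠ j) (t : ℤ), g = SpecialLinearGroup.transvection h t}

lemma mem_T {i j : ι} (h : i ≠ j) (t : ℤ) : SpecialLinearGroup.transvection h t ∈ T ι :=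
  ⟨i, j, h, t, rfl⟩

lemma one_mem_T {i j : ι} (h : i ≠ j) : (1 : SpecialLinearGroup ι ℤ) ∈ T ι :=
  ⟨i, j, h, 0, by simp⟩

/-- Entries of a row operation. -/
lemma tv_mul_apply {i j : ι} (h : i ≠ j) (t : ℤ) (A : SpecialLinearGroup ι ℤ) (x y : ι) :
    (SpecialLinearGroup.transvection h t * A) x y =
      if x = i then A x y + t * A j y else A x y := by
  change (Matrix.transvection i j t * (A : Matrix ι ι ℤ)) x y = _
  split_ifs with hx
  · subst hx
    exact transvection_mul_apply_same x j y t _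
  · exact transvection_mul_apply_of_ne i j x y hx t _

/-- Entries of a column operation. -/
lemma mul_tv_apply {i j : ι} (h : i ≠ j) (t : ℤ) (A : SpecialLinearGroup ι ℤ) (x y : ι) :
    (A * SpecialLinearGroup.transvection h t) x y =
      if y = j then A x y + t * A x i else A x y := by
  change ((A : Matrix ι ι ℤ) * Matrix.transvection i j t) x y = _
  split_ifs with hx
  · subst hx
    exact mul_transvection_apply_same i y x t _
  · exact mul_transvection_apply_of_ne i j x y hx t _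

/-- Matrices which are the identity outside the block `S`. -/
def X (S : Finset ι) : Set (SpecialLinearGroup ι ℤ) :=
  {A | ∀ x y, (x ∉ S ∨ y ∉ S) → A x y = if x = y then 1 else 0}

lemma one_mem_X (S : Finset ι) : (1 : SpecialLinearGroup ι ℤ) ∈ X S := fun x y _ => by
  change (1 : Matrix ι ι ℤ) x y = _
  rw [Matrix.one_apply]

lemma mul_mem_X {S : Finset ι} {A B : SpecialLinearGroup ι ℤ} (hA : A ∈ X S) (hB : B ∈ X S) :
    A * B ∈ X S := by
  intro x y h
  change ((A : Matrix ι ι ℤ) * (B : Matrix ι ι ℤ)) x y = _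
  rw [Matrix.mul_apply]
  by_cases hx : x ∈ S
  · have hy : y ∉ S := by tauto
    rw [Finset.sum_eq_single y]
    · rw [hB y y (Or.inl hy), if_pos rfl, mul_one, hA x y h]
    · intro z _ hz
      rw [hB z y (Or.inr hy), if_neg hz, mul_zero]
    · simp
  · rw [Finset.sum_eq_single x]
    · rw [hA x x (Or.inl hx), if_pos rfl, one_mul, hB x y h]
    · intro z _ hz
      rw [hA x z (Or.inl hx), if_neg (Ne.symm hz), zero_mul]
    · simp

lemma tv_mem_X {S : Finset ι} {i j : ι} (h : i ≠ j) (t : ℤ) (hi : i ∈ S) (hj : j ∈ S) :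
    SpecialLinearGroup.transvection h t ∈ X S := by
  intro x y hxy
  have := tv_mul_apply h t (1 : SpecialLinearGroup ι ℤ) x y
  rw [mul_one] at this
  rw [this]
  have e1 : ∀ a b : ι, (1 : SpecialLinearGroup ι ℤ) a b = if a = b then 1 else 0 := fun a b => by
    change (1 : Matrix ι ι ℤ) a b = _
    rw [Matrix.one_apply]
  rw [e1, e1]
  split_ifs with h1 h2 h3 h4
  · subst h1; subst h2; subst h3; exact absurd rfl h
  · simp
  · exfalso
    subst h1; subst h4
    tauto
  · simp
  · rfl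
  · rfl

lemma X_mono {S S' : Finset ι} (h : S ⊆ S') : X S ⊆ X S' := fun _ hA x y hxy =>
  hA x y (hxy.imp (fun a b => a (h b)) (fun a b => a (h b)))

/-- adding multiples of the rows of `S` to the row `k` -/
lemma rowop (k : ι) (S : Finset ι) (hk : k ∉ S) (c : ι → ℤ) :
    ∃ g : SpecialLinearGroup ι ℤ, g ∈ T ι ^ S.card ∧ g ∈ X (insert k S) ∧
      ∀ A : SpecialLinearGroup ι ℤ,
      (∀ y, (g * A) k y = A k y + ∑ i ∈ S, c i * A i y) ∧
      ∀ x, x ≠ k → ∀ y, (g * A) x y = A x y := by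
  induction S using Finset.induction_on with
  | empty => exact ⟨1, by simp, one_mem_X _, fun A => by simp⟩
  | insert a S ha ih =>
    obtain ⟨g, hg, hX, h⟩ := ih (fun h => hk (Finset.mem_insert_of_mem h))
    have hka : k ≠ a := fun h => hk (h ▸ Finset.mem_insert_self _ _)
    refine ⟨SpecialLinearGroup.transvection hka (c a) * g, ?_, ?_, fun A => ⟨fun y => ?_,
      fun x hx y => ?_⟩⟩
    · rw [Finset.card_insert_of_notMem ha, pow_succ']
      exact Set.mul_mem_mul (mem_T _ _) hg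
    · refine mul_mem_X (tv_mem_X _ _ (by simp) (by simp)) (X_mono ?_ hX)
      exact Finset.insert_subset_insert _ (Finset.subset_insert _ _)
    · rw [mul_assoc, tv_mul_apply, if_pos rfl, (h A).1, (h A).2 a hka.symm,
        Finset.sum_insert ha]
      ring
    · rw [mul_assoc, tv_mul_apply, if_neg hx, (h A).2 x hx]

/-- adding multiples of the row `k` to the rows of `S` -/
lemma rowop' (k : ι) (S : Finset ι) (hk : k ∉ S) (c : ι → ℤ) :
    ∃ g : SpecialLinearGroup ι ℤ, g ∈ T ι ^ S.card ∧ g ∈ X (insert k S) ∧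
      ∀ A : SpecialLinearGroup ι ℤ,
      (∀ x, x ∈ S → ∀ y, (g * A) x y = A x y + c x * A k y) ∧
      ∀ x, x ∉ S → ∀ y, (g * A) x y = A x y := by
  induction S using Finset.induction_on with
  | empty => exact ⟨1, by simp, one_mem_X _, fun A => by simp⟩
  | insert a S ha ih =>
    obtain ⟨g, hg, hX, h⟩ := ih (fun h => hk (Finset.mem_insert_of_mem h))
    have hka : a ≠ k := fun h => hk (h ▸ Finset.mem_insert_self _ _)
    have hkS : k ∉ S := fun h => hk (Finset.mem_insert_of_mem h)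
    refine ⟨SpecialLinearGroup.transvection hka (c a) * g, ?_, ?_, fun A => ⟨fun x hx y => ?_,
      fun x hx y => ?_⟩⟩
    · rw [Finset.card_insert_of_notMem ha, pow_succ']
      exact Set.mul_mem_mul (mem_T _ _) hg
    · refine mul_mem_X (tv_mem_X _ _ (by simp) (by simp)) (X_mono ?_ hX)
      exact Finset.insert_subset_insert _ (Finset.subset_insert _ _)
    · rw [mul_assoc, tv_mul_apply]
      rcases Finset.mem_insert.1 hx with rfl | hx
      · rw [if_pos rfl, (h A).2 x ha, (h A).2 k hkS]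
      · rw [if_neg (fun e : x = a => ha (e ▸ hx)), (h A).1 x hx]
    · have hx1 : x ≠ a := fun e => hx (e ▸ Finset.mem_insert_self _ _)
      have hx2 : x ∉ S := fun e => hx (Finset.mem_insert_of_mem e)
      rw [mul_assoc, tv_mul_apply, if_neg hx1, (h A).2 x hx2]

/-- adding multiples of the column `k` to the columns of `S` -/
lemma colop' (k : ι) (S : Finset ι) (hk : k ∉ S) (c : ι → ℤ) :
    ∃ g : SpecialLinearGroup ι ℤ, g ∈ T ι ^ S.card ∧ g ∈ X (insert k S) ∧
      ∀ A : SpecialLinearGroup ι ℤ,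
      (∀ y, y ∈ S → ∀ x, (A * g) x y = A x y + c y * A x k) ∧
      ∀ y, y ∉ S → ∀ x, (A * g) x y = A x y := by
  induction S using Finset.induction_on with
  | empty => exact ⟨1, by simp, one_mem_X _, fun A => by simp⟩
  | insert a S ha ih =>
    obtain ⟨g, hg, hX, h⟩ := ih (fun h => hk (Finset.mem_insert_of_mem h))
    have hka : k ≠ a := fun h => hk (h ▸ Finset.mem_insert_self _ _)
    have hkS : k ∉ S := fun h => hk (Finset.mem_insert_of_mem h)
    refine ⟨g * SpecialLinearGroup.transvection hka (c a), ?_, ?_, fun A => ⟨fun y hx x => ?_,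
      fun y hx x => ?_⟩⟩
    · rw [Finset.card_insert_of_notMem ha, pow_succ]
      exact Set.mul_mem_mul hg (mem_T _ _)
    · refine mul_mem_X (X_mono ?_ hX) (tv_mem_X _ _ (by simp) (by simp))
      exact Finset.insert_subset_insert _ (Finset.subset_insert _ _)
    · rw [← mul_assoc, mul_tv_apply]
      rcases Finset.mem_insert.1 hx with rfl | hx
      · rw [if_pos rfl, (h A).2 y ha, (h A).2 k hkS]
      · rw [if_neg (fun e : y = a => ha (e ▸ hx)), (h A).1 y hx]
    · have hx1 : y ≠ a := fun e => hx (e ▸ Finset.mem_insert_self _ _)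
      have hx2 : y ∉ S := fun e => hx (Finset.mem_insert_of_mem e)
      rw [← mul_assoc, mul_tv_apply, if_neg hx1, (h A).2 y hx2]

/-- stable range lemma -/
lemma exists_coprime_shift (a b d x y z : ℤ) (hd : d ≠ 0) (h : x * a + y * b + z * d = 1) :
    ∃ t p q : ℤ, p * (a + t * b) + q * d = 1 := by
  classical
  let t : ℕ := ∏ r ∈ d.natAbs.primeFactors.filter (fun r : ℕ => ¬ (r : ℤ) ∣ a), r
  suffices hc : IsCoprime (a + (t : ℤ) * b) d by
    obtain ⟨p, q, hpq⟩ := hc
    exact ⟨t, p, q, hpq⟩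
  rw [Int.isCoprime_iff_gcd_eq_one]
  by_contra hne
  obtain ⟨p, hp, hpd⟩ := Nat.exists_prime_and_dvd hne
  have h1 : (p : ℤ) ∣ a + t * b := (Int.natCast_dvd_natCast.2 hpd).trans (Int.gcd_dvd_left _ _)
  have h2 : (p : ℤ) ∣ d := (Int.natCast_dvd_natCast.2 hpd).trans (Int.gcd_dvd_right _ _)
  have hpp : Prime (p : ℤ) := Nat.prime_iff_prime_int.1 hp
  by_cases hpa : (p : ℤ) ∣ a
  · have h3 : (p : ℤ) ∣ t * b := (dvd_add_right hpa).1 h1
    rcases hpp.dvd_or_dvd h3 with h4 | h4
    · have h5 : p ∣ t := Int.natCast_dvd_natCast.1 h4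
      obtain ⟨q, hq, hpq⟩ := (Prime.dvd_finsetProd_iff hp.prime _).1 h5
      rw [Finset.mem_filter] at hq
      have h6 : p = q := (Nat.prime_dvd_prime_iff_eq hp (Nat.prime_of_mem_primeFactors hq.1)).1 hpq
      exact hq.2 (h6 ▸ hpa)
    · have : (p : ℤ) ∣ 1 := by
        rw [← h]
        exact dvd_add (dvd_add (hpa.mul_left _) (h4.mul_left _)) (h2.mul_left _)
      exact hpp.not_dvd_one this
  · have h5 : p ∣ t := by
      refine Finset.dvd_prod_of_mem (fun r : ℕ => r) ?_
      rw [Finset.mem_filter]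
      refine ⟨?_, hpa⟩
      rw [Nat.mem_primeFactors]
      exact ⟨hp, Int.natCast_dvd.1 h2, by simpa using hd⟩
    have h6 : (p : ℤ) ∣ t * b := (Int.natCast_dvd_natCast.2 h5).mul_right _
    exact hpa ((dvd_add_left h6).1 h1)

omit [Fintype ι] in
/-- making the truncated column unimodular -/
lemma vec_step (S : Finset ι) (p q : ι) (hp : p ∈ S) (hq : q ∈ S) (hpq : p ≠ q) (v : ι → ℤ)
    (vk : ℤ) (w : ι → ℤ) (wk : ℤ) (h : ∑ i ∈ S, w i * v i + wk * vk = 1) :
    ∃ (r : ι) (t : ℤ) (w' : ι → ℤ), r ∈ S ∧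
      ∑ i ∈ S, w' i * (v i + if i = r then t * vk else 0) = 1 := by
  classical
  set d := (S.erase p).gcd v with hd
  obtain ⟨g, hg⟩ := Finset.gcd_eq_sum_mul (S.erase p) v
  rw [← hd] at hg
  have hsplit : ∀ f : ι → ℤ, ∑ i ∈ S, f i = f p + ∑ i ∈ S.erase p, f i := fun f => by
    rw [← Finset.add_sum_erase S f hp]
  by_cases hd0 : d = 0
  · have hv : ∀ i ∈ S.erase p, v i = 0 := Finset.gcd_eq_zero_iff.1 (hd ▸ hd0)
    have hvq : v q = 0 := hv q (Finset.mem_erase.2 ⟨hpq.symm, hq⟩)
    refine ⟨q, 1, fun i => if i = p then w p else if i = q then wk else 0, hq, ?_⟩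
    rw [hsplit]
    have h1 : ∑ i ∈ S.erase p, w i * v i = 0 :=
      Finset.sum_eq_zero fun i hi => by rw [hv i hi, mul_zero]
    rw [hsplit, h1, add_zero] at h
    rw [Finset.sum_eq_single q]
    · simp only [if_true, if_neg hpq, if_neg hpq.symm, hvq, one_mul, zero_add, add_zero]
      exact h
    · intro i hi hiq
      have : i ≠ p := Finset.ne_of_mem_erase hi
      simp [this, hiq]
    · intro hq'
      exact absurd (Finset.mem_erase.2 ⟨hpq.symm, hq⟩) hq'
  · have hdv : ∀ i ∈ S.erase p, d ∣ v i := fun i hi => Finset.gcd_dvd hi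
    choose! e he using hdv
    have h1 : ∑ i ∈ S.erase p, w i * v i = (∑ i ∈ S.erase p, w i * e i) * d := by
      rw [Finset.sum_mul]
      refine Finset.sum_congr rfl fun i hi => ?_
      conv_lhs => rw [he i hi]
      ring
    rw [hsplit, h1] at h
    obtain ⟨t, P, Q, hPQ⟩ := exists_coprime_shift (v p) vk d (w p) wk
      (∑ i ∈ S.erase p, w i * e i) hd0 (by linarith)
    refine ⟨p, t, fun i => if i = p then P else Q * g i, hp, ?_⟩
    rw [hsplit]
    have h2 : ∑ i ∈ S.erase p, (if i = p then P else Q * g i) *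
        (v i + if i = p then t * vk else 0) = Q * d := by
      rw [hg, Finset.mul_sum]
      refine Finset.sum_congr rfl fun i hi => ?_
      have : i ≠ p := Finset.ne_of_mem_erase hi
      rw [if_neg this, if_neg this]
      ring
    rw [h2]
    simpa using hPQ

/-- one step of the reduction -/
lemma reduce_step (S : Finset ι) (p q κ : ι) (hp : p ∈ S) (hq : q ∈ S) (hpq : p ≠ q)
    (hκ : κ ∉ S) :
    ∃ r : ℕ, ∀ A ∈ X (insert κ S), ∃ g ∈ T ι ^ r, ∃ h ∈ T ι ^ r, g * A * h ∈ X S := by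
  have h1T : (1 : SpecialLinearGroup ι ℤ) ∈ T ι := one_mem_T hpq
  refine ⟨S.card + S.card + 1, fun A hA => ?_⟩
  -- the column is unimodular
  have hU : ∑ i ∈ S, A⁻¹ κ i * A i κ + A⁻¹ κ κ * A κ κ = 1 := by
    have h0 : ((A⁻¹ * A : SpecialLinearGroup ι ℤ) : Matrix ι ι ℤ) κ κ = 1 := by
      rw [inv_mul_cancel]
      change (1 : Matrix ι ι ℤ) κ κ = 1
      simp
    have h1 : ((A⁻¹ * A : SpecialLinearGroup ι ℤ) : Matrix ι ι ℤ) κ κ =
        ∑ i, A⁻¹ κ i * A i κ := by
      change ((A⁻¹ : SpecialLinearGroup ι ℤ) * (A : Matrix ι ι ℤ) : Matrix ι ι ℤ) κ κ = _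
      rw [Matrix.mul_apply]
    rw [h1] at h0
    refine Eq.trans ?_ h0
    rw [← Finset.sum_subset (Finset.subset_univ (insert κ S)), Finset.sum_insert hκ,
      add_comm]
    intro i _ hi
    rw [hA i κ (Or.inl hi), if_neg, mul_zero]
    rintro rfl
    exact hi (Finset.mem_insert_self _ _)
  obtain ⟨r, t, w', hr, hw'⟩ := vec_step S p q hp hq hpq (fun i => A i κ) (A κ κ)
    (fun i => A⁻¹ κ i) (A⁻¹ κ κ) hU
  have hrκ : r ≠ κ := fun e => hκ (e ▸ hr)
  -- step 1
  set g1 : SpecialLinearGroup ι ℤ := SpecialLinearGroup.transvection hrκ t with hg1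
  have hA1 : ∀ x y, (g1 * A) x y = if x = r then A x y + t * A κ y else A x y :=
    fun x y => tv_mul_apply hrκ t A x y
  have hA1X : g1 * A ∈ X (insert κ S) :=
    mul_mem_X (tv_mem_X _ _ (Finset.mem_insert_of_mem hr) (Finset.mem_insert_self _ _)) hA
  have hw1 : ∑ i ∈ S, w' i * (g1 * A) i κ = 1 := by
    refine Eq.trans ?_ hw'
    refine Finset.sum_congr rfl fun i _ => ?_
    rw [hA1]
    split_ifs <;> simp
  set A1 := g1 * A with hA1d
  -- step 2
  obtain ⟨g2, hg2, hg2X, hg2'⟩ := rowop κ S hκ (fun i => (1 - A1 κ κ) * w' i)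
  obtain ⟨h21, h22⟩ := hg2' A1
  have hA2X : g2 * A1 ∈ X (insert κ S) := mul_mem_X hg2X hA1X
  have h2κ : (g2 * A1) κ κ = 1 := by
    rw [h21]
    have : ∑ i ∈ S, (1 - A1 κ κ) * w' i * A1 i κ = (1 - A1 κ κ) * ∑ i ∈ S, w' i * A1 i κ := by
      rw [Finset.mul_sum]
      exact Finset.sum_congr rfl fun i _ => by ring
    rw [this, hw1]
    ring
  set A2 := g2 * A1 with hA2d
  -- step 3
  obtain ⟨g3, hg3, hg3X, hg3'⟩ := rowop' κ S hκ (fun i => - A2 i κ)
  obtain ⟨h31, h32⟩ := hg3' A2
  have hA3X : g3 * A2 ∈ X (insert κ S) := mul_mem_X hg3X hA2X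
  have h3κ : (g3 * A2) κ κ = 1 := by rw [h32 κ hκ, h2κ]
  have h3S : ∀ x ∈ S, (g3 * A2) x κ = 0 := fun x hx => by
    rw [h31 x hx, h2κ]; ring
  set A3 := g3 * A2 with hA3d
  -- step 4
  obtain ⟨g4, hg4, hg4X, hg4'⟩ := colop' κ S hκ (fun i => - A3 κ i)
  obtain ⟨h41, h42⟩ := hg4' A3
  have hA4X : A3 * g4 ∈ X (insert κ S) := mul_mem_X hA3X hg4X
  have hT1 : ∀ {a b : ℕ}, a ≤ b → T ι ^ a ⊆ T ι ^ b := fun hab =>
    Set.pow_subset_pow_right h1T hab
  refine ⟨g3 * g2 * g1, ?_, g4, hT1 (by omega) hg4, ?_⟩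
  · rw [pow_add, pow_add, pow_one]
    exact Set.mul_mem_mul (Set.mul_mem_mul hg3 hg2) (mem_T _ _)
  · have e : g3 * g2 * g1 * A * g4 = A3 * g4 := by
      rw [hA3d, hA2d, hA1d]
      group
    rw [e]
    intro x y hxy
    by_cases hx : x = κ
    · subst hx
      by_cases hy : y ∈ S
      · rw [h41 y hy, h3κ, if_neg]
        · ring
        · rintro rfl
          exact hκ hy
      · rw [h42 y hy]
        by_cases hyx : x = y
        · subst hyx
          rw [h3κ, if_pos rfl]
        · exact hA3X x y (Or.inr (by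
            rw [Finset.mem_insert]
            rintro (h | h)
            · exact hyx h.symm
            · exact hy h))
    · by_cases hy : y = κ
      · subst hy
        rw [h42 y hκ]
        by_cases hxS : x ∈ S
        · rw [h3S x hxS, if_neg hx]
        · exact hA3X x y (Or.inl (by
            rw [Finset.mem_insert]
            rintro (h | h)
            · exact hx h
            · exact hxS h))
      · refine hA4X x y (hxy.imp ?_ ?_)
        · intro h h'
          rcases Finset.mem_insert.1 h' with h' | h'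
          · exact hx h'
          · exact h h'
        · intro h h'
          rcases Finset.mem_insert.1 h' with h' | h'
          · exact hy h'
          · exact h h'

lemma inv_mem_pow_T {r : ℕ} {g : SpecialLinearGroup ι ℤ} (h : g ∈ T ι ^ r) : g⁻¹ ∈ T ι ^ r := by
  have hT : (T ι)⁻¹ = T ι := by
    ext x
    rw [Set.mem_inv]
    constructor
    · rintro ⟨i, j, hij, t, ht⟩
      refine ⟨i, j, hij, -t, ?_⟩
      rw [← SpecialLinearGroup.transvection_inv, ← ht, inv_inv]
    · rintro ⟨i, j, hij, t, ht⟩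
      refine ⟨i, j, hij, -t, ?_⟩
      rw [← SpecialLinearGroup.transvection_inv, ← ht]
  rw [← Set.mem_inv, ← inv_pow, hT]
  exact h

/-- bounded reduction to the block `{p, q}` -/
lemma reduce (p q : ι) (hpq : p ≠ q) : ∃ r : ℕ, ∀ A : SpecialLinearGroup ι ℤ,
    ∃ g ∈ T ι ^ r, ∃ h ∈ T ι ^ r, ∃ B ∈ X ({p, q} : Finset ι), A = g * B * h := by
  have h1T : (1 : SpecialLinearGroup ι ℤ) ∈ T ι := one_mem_T hpq
  have key : ∀ D : Finset ι, Disjoint {p, q} D → ∃ r : ℕ, ∀ A ∈ X ({p, q} ∪ D),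
      ∃ g ∈ T ι ^ r, ∃ h ∈ T ι ^ r, ∃ B ∈ X ({p, q} : Finset ι), A = g * B * h := by
    intro D
    induction D using Finset.induction_on with
    | empty =>
      intro _
      exact ⟨0, fun A hA => ⟨1, by simp, 1, by simp, A, by simpa using hA, by simp⟩⟩
    | insert κ D hκ ih =>
      intro hd
      rw [Finset.disjoint_insert_right] at hd
      obtain ⟨r, hr⟩ := ih hd.2
      obtain ⟨s, hs⟩ := reduce_step ({p, q} ∪ D) p q κ (by simp) (by simp) hpq
        (by
          rw [Finset.mem_union]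
          rintro (h | h)
          · exact hd.1 h
          · exact hκ h)
      refine ⟨s + r, fun A hA => ?_⟩
      rw [Finset.union_insert] at hA
      obtain ⟨g, hg, h, hh, hX⟩ := hs A hA
      obtain ⟨g', hg', h', hh', B, hB, e⟩ := hr _ hX
      refine ⟨g⁻¹ * g', ?_, h' * h⁻¹, ?_, B, hB, ?_⟩
      · rw [pow_add]
        exact Set.mul_mem_mul (inv_mem_pow_T hg) hg'
      · rw [add_comm, pow_add]
        exact Set.mul_mem_mul hh' (inv_mem_pow_T hh)
      · have : A = g⁻¹ * (g * A * h) * h⁻¹ := by group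
        rw [this, e]
        group
  obtain ⟨r, hr⟩ := key (Finset.univ \ {p, q}) Finset.disjoint_sdiff
  refine ⟨r, fun A => hr A ?_⟩
  intro x y hxy
  simp at hxy

end Pool.Agent.TH567.PR
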