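import Mathlib

/-! A commutator which commutes with both factors is quasi-unipotent, over any field. -/

namespace Pool.Agent.TH567.PR

open Polynomial Module

section alg

variable {K V : Type*} [Field K] [IsAlgClosed K] [AddCommGroup V] [Module K V]
  [FiniteDimensional K V]

lemma eigen_torsion (a b u : (End K V)ˣ) (h : a * b = u * (b * a)) (hau : a * u = u * a)
    (hbu : b * u = u * b) (l : K) (hl : (u : End K V).HasEigenvalue l) :
    ∃ n : ℕ, n ≠ 0 ∧ l ^ n = 1 := by
  classical
  have hinj : ∀ (c : (End K V)ˣ) (v : V), (c : End K V) v = 0 → v = 0 := fun c v hv => by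
    have : ((c⁻¹ : (End K V)ˣ) : End K V) ((c : End K V) v) = v := by
      rw [← Module.End.mul_apply, Units.inv_mul, Module.End.one_apply]
    rw [← this, hv, map_zero]
  have hl0 : l ≠ 0 := by
    rintro rfl
    obtain ⟨v, hv⟩ := hl.exists_hasEigenvector
    exact hv.2 (hinj u v (by simpa using hv.apply_eq_smul))
  -- the joint eigenvalues
  let S : Set K := {β | ∃ v : V, v ≠ 0 ∧ (u : End K V) v = l • v ∧ (b : End K V) v = β • v}
  have hS1 : ∀ β ∈ S, (b : End K V).HasEigenvalue β := by
    rintro β ⟨v, hv, -, hb⟩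
    exact Module.End.hasEigenvalue_of_hasEigenvector (x := v)
      ⟨Module.End.mem_eigenspace_iff.2 hb, hv⟩
  have hSfin : S.Finite := (Module.End.finite_hasEigenvalue (b : End K V)).subset hS1
  have hS0 : ∀ β ∈ S, β ≠ 0 := by
    rintro β ⟨v, hv, -, hb⟩ rfl
    exact hv (hinj b v (by simpa using hb))
  have hSmul : ∀ β ∈ S, β * l ∈ S := by
    rintro β ⟨v, hv, hu, hb⟩
    refine ⟨((a⁻¹ : (End K V)ˣ) : End K V) v, fun h0 => hv (hinj _ v h0), ?_, ?_⟩
    · have e : u * a⁻¹ = a⁻¹ * u := by
        rw [eq_inv_mul_iff_mul_eq, ← mul_assoc, hau, mul_inv_cancel_right]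
      have e' : (u : End K V) * ((a⁻¹ : (End K V)ˣ) : End K V) =
          ((a⁻¹ : (End K V)ˣ) : End K V) * (u : End K V) := by
        exact_mod_cast congrArg (fun c : (End K V)ˣ => (c : End K V)) e
      rw [← Module.End.mul_apply, e', Module.End.mul_apply, hu, map_smul]
    · have e : b * a⁻¹ = a⁻¹ * (u * b) := by
        rw [eq_inv_mul_iff_mul_eq, ← mul_assoc, h]
        group
      have e' : (b : End K V) * ((a⁻¹ : (End K V)ˣ) : End K V) =
          ((a⁻¹ : (End K V)ˣ) : End K V) * ((u : End K V) * (b : End K V)) := by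
        exact_mod_cast congrArg (fun c : (End K V)ˣ => (c : End K V)) e
      rw [← Module.End.mul_apply, e', Module.End.mul_apply, Module.End.mul_apply, hb, map_smul,
        hu, map_smul, map_smul, smul_smul]
  -- it is not empty
  obtain ⟨β, hβ⟩ : S.Nonempty := by
    let E := Module.End.eigenspace (u : End K V) l
    have hmap : ∀ x ∈ E, (b : End K V) x ∈ E := fun x hx => by
      rw [Module.End.mem_eigenspace_iff] at hx ⊢
      have e' : (u : End K V) * (b : End K V) = (b : End K V) * (u : End K V) := by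
        exact_mod_cast (congrArg (fun c : (End K V)ˣ => (c : End K V)) hbu).symm
      rw [← Module.End.mul_apply, e', Module.End.mul_apply, hx, map_smul]
    obtain ⟨v, hv⟩ := hl.exists_hasEigenvector
    haveI : Nontrivial E := ⟨⟨⟨v, hv.1⟩, 0, fun h => hv.2 (congrArg Subtype.val h)⟩⟩
    obtain ⟨β, hβ⟩ := Module.End.exists_eigenvalue (K := K) (V := E)
      ((b : End K V).restrict hmap)
    obtain ⟨x, hx⟩ := hβ.exists_hasEigenvector
    refine ⟨β, x, fun h0 => hx.2 (Subtype.ext h0), ?_, ?_⟩
    · exact Module.End.mem_eigenspace_iff.1 x.2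
    · have := hx.apply_eq_smul
      exact congrArg Subtype.val this
  have hk : ∀ k : ℕ, β * l ^ k ∈ S := by
    intro k
    induction k with
    | zero => simpa using hβ
    | succ k ih => rw [pow_succ, ← mul_assoc]; exact hSmul _ ih
  have hni : ¬ Function.Injective (fun k : ℕ => β * l ^ k) := fun hinj =>
    Set.infinite_univ (hSfin.subset (Set.range_subset_iff.2 hk) |>.preimage hinj.injOn |>.subset
      (fun x _ => ⟨x, rfl⟩))
  rw [Function.Injective] at hni
  push Not at hni
  obtain ⟨i, j, hij, hne⟩ := hni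
  have hij' : l ^ i = l ^ j := mul_left_cancel₀ (hS0 β hβ) hij
  rcases lt_or_gt_of_ne hne with hlt | hlt
  · refine ⟨j - i, by omega, ?_⟩
    have : l ^ i * l ^ (j - i) = l ^ i * 1 := by
      rw [← pow_add, mul_one, hij']; congr 1; omega
    exact mul_left_cancel₀ (pow_ne_zero _ hl0) this
  · refine ⟨i - j, by omega, ?_⟩
    have : l ^ j * l ^ (i - j) = l ^ j * 1 := by
      rw [← pow_add, mul_one, ← hij']; congr 1; omega
    exact mul_left_cancel₀ (pow_ne_zero _ hl0) this

/-- if all eigenvalues of `u` are roots of unity then `u ^ N - 1` is nilpotent for some `N` -/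
lemma unip_of_eigen (u : End K V) (hu : ∀ l : K, u.HasEigenvalue l → ∃ n : ℕ, n ≠ 0 ∧ l ^ n = 1) :
    ∃ N : ℕ, N ≠ 0 ∧ ∃ k : ℕ, (u ^ N - 1) ^ k = 0 := by
  classical
  have h1 : ∀ l ∈ (LinearMap.charpoly u).roots, ∃ n : ℕ, n ≠ 0 ∧ l ^ n = 1 := by
    intro l hl
    apply hu
    rw [Module.End.hasEigenvalue_iff_isRoot_charpoly]
    exact (Polynomial.mem_roots'.1 hl).2
  choose! n hn using h1
  refine ⟨∏ l ∈ (LinearMap.charpoly u).roots.toFinset, n l,
    Finset.prod_ne_zero_iff.2 fun l hl => (hn l (Multiset.mem_toFinset.1 hl)).1,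
    (LinearMap.charpoly u).roots.card, ?_⟩
  set N := ∏ l ∈ (LinearMap.charpoly u).roots.toFinset, n l
  have hN : ∀ l ∈ (LinearMap.charpoly u).roots, l ^ N = 1 := fun l hl => by
    obtain ⟨c, hc⟩ : n l ∣ N := Finset.dvd_prod_of_mem n (Multiset.mem_toFinset.2 hl)
    rw [hc, pow_mul, (hn l hl).2, one_pow]
  have hsplit : LinearMap.charpoly u =
      ((LinearMap.charpoly u).roots.map (fun l => X - C l)).prod :=
    (IsAlgClosed.splits (LinearMap.charpoly u)).eq_prod_roots_of_monic
      (LinearMap.charpoly_monic u)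
  have hdvd : LinearMap.charpoly u ∣ (X ^ N - 1 : K[X]) ^ (LinearMap.charpoly u).roots.card := by
    rw [hsplit]
    have e : (X ^ N - 1 : K[X]) ^ (Multiset.map (fun l => X - C l)
        (LinearMap.charpoly u).roots).prod.roots.card =
        ((LinearMap.charpoly u).roots.map (fun _ => (X ^ N - 1 : K[X]))).prod := by
      rw [← hsplit, Multiset.map_const', Multiset.prod_replicate]
    rw [e]
    refine Multiset.prod_dvd_prod_of_dvd _ _ fun l hl => ?_
    rw [Polynomial.dvd_iff_isRoot]
    simp [hN l hl]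
  obtain ⟨q, hq⟩ := hdvd
  have h2 := congrArg (fun P : K[X] => aeval u P) hq
  simp only [map_mul, LinearMap.aeval_self_charpoly, zero_mul, map_pow, map_sub, aeval_X,
    map_one] at h2
  exact h2

end alg

end Pool.Agent.TH567.PR
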