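import Pool.Agent.TH567.PR.Elem

/-! Generation of `SL_ι(ℤ)` by elementary matrices, and finiteness of the quotients in which
the elementary matrices have finite order. -/

namespace Pool.Agent.TH567.PR

open Matrix
open scoped Pointwise

variable {ι : Type*} [Fintype ι] [DecidableEq ι]

lemma one_ap (a b : ι) : (1 : SpecialLinearGroup ι ℤ) a b = if a = b then 1 else 0 := by
  change (1 : Matrix ι ι ℤ) a b = _
  rw [Matrix.one_apply]

/-- the rotation in the plane `p, q` -/
lemma exists_w (p q : ι) (hpq : p ≠ q) : ∃ w ∈ Subgroup.closure (T ι), w ∈ X ({p, q} : Finset ι) ∧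
    ∀ (A : SpecialLinearGroup ι ℤ) (x y : ι), (w * A) x y =
      if x = p then A q y else if x = q then - A p y else A x y := by
  refine ⟨SpecialLinearGroup.transvection hpq 1 * (SpecialLinearGroup.transvection hpq.symm (-1) *
    SpecialLinearGroup.transvection hpq 1), ?_, ?_, fun A x y => ?_⟩
  · exact mul_mem (Subgroup.subset_closure (mem_T _ _))
      (mul_mem (Subgroup.subset_closure (mem_T _ _)) (Subgroup.subset_closure (mem_T _ _)))
  · exact mul_mem_X (tv_mem_X _ _ (by simp) (by simp))
      (mul_mem_X (tv_mem_X _ _ (by simp) (by simp)) (tv_mem_X _ _ (by simp) (by simp)))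
  · rw [mul_assoc, mul_assoc]
    simp only [tv_mul_apply]
    by_cases h1 : x = p
    · subst h1
      simp [hpq, hpq.symm]
    · by_cases h2 : x = q
      · subst h2
        simp [hpq, hpq.symm]
      · simp [h1, h2]

lemma block_mem_closure (p q : ι) (hpq : p ≠ q) : ∀ (m : ℕ) (A : SpecialLinearGroup ι ℤ),
    A ∈ X ({p, q} : Finset ι) → (A p q).natAbs = m → A ∈ Subgroup.closure (T ι) := by
  obtain ⟨w, hw, hwX, hw'⟩ := exists_w p q hpq
  intro m
  induction m using Nat.strong_induction_on with
  | _ m ih =>
    intro A hA hm
    have hcl : ∀ {i j : ι} (h : i ≠ j) (t : ℤ),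
        SpecialLinearGroup.transvection h t ∈ Subgroup.closure (T ι) :=
      fun h t => Subgroup.subset_closure (mem_T h t)
    by_cases hb : A p q = 0
    · -- the lower triangular case
      have e1 : A p p * A⁻¹ p p = 1 := by
        have h0 : ((A * A⁻¹ : SpecialLinearGroup ι ℤ) : Matrix ι ι ℤ) p p = 1 := by
          rw [mul_inv_cancel]
          change (1 : Matrix ι ι ℤ) p p = 1
          simp
        have h1 : ((A * A⁻¹ : SpecialLinearGroup ι ℤ) : Matrix ι ι ℤ) p p =
            ∑ i, A p i * A⁻¹ i p := by
          change ((A : Matrix ι ι ℤ) * ((A⁻¹ : SpecialLinearGroup ι ℤ) : Matrix ι ι ℤ)) p p = _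
          rw [Matrix.mul_apply]
        rw [h1] at h0
        refine Eq.trans ?_ h0
        rw [Finset.sum_eq_single p]
        · intro i _ hi
          by_cases hiq : i = q
          · rw [hiq, hb, zero_mul]
          · rw [hA p i (Or.inr (by simp [hi, hiq])), if_neg (Ne.symm hi), zero_mul]
        · simp
      set D := SpecialLinearGroup.transvection hpq.symm (-(A q p * A p p)) * A with hD
      have hDX : D ∈ X ({p, q} : Finset ι) := mul_mem_X (tv_mem_X _ _ (by simp) (by simp)) hA
      have happ : A p p * A p p = 1 := by
        rcases Int.isUnit_iff.1 (IsUnit.of_mul_eq_one _ e1) with h | h <;> rw [h] <;> norm_num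
      have hDdiag : (D : Matrix ι ι ℤ) = Matrix.diagonal
          (fun i => if i = p then A p p else if i = q then A q q else 1) := by
        ext x y
        rw [Matrix.diagonal_apply]
        by_cases hx : x = p
        · subst hx
          rw [hD, tv_mul_apply, if_neg hpq]
          by_cases hy : y = x
          · subst hy
            simp
          · rw [if_neg (Ne.symm hy)]
            by_cases hyq : y = q
            · rw [hyq, hb]
            · rw [hA x y (Or.inr (by simp [hy, hyq])), if_neg (Ne.symm hy)]
        · by_cases hxq : x = q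
          · subst hxq
            rw [hD, tv_mul_apply, if_pos rfl]
            by_cases hy : y = x
            · subst hy
              simp [hb, hx]
            · rw [if_neg (Ne.symm hy)]
              by_cases hyp : y = p
              · subst hyp
                linear_combination (- A x y) * happ
              · rw [hA x y (Or.inr (by simp [hy, hyp])), if_neg (Ne.symm hy),
                  hA p y (Or.inr (by simp [hy, hyp])), if_neg (Ne.symm hyp)]
                simp
          · rw [hDX x y (Or.inl (by simp [hx, hxq])), if_neg hx, if_neg hxq]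
      have hdet : A p p * A q q = 1 := by
        have h1 : (D : Matrix ι ι ℤ).det = 1 := D.2
        rw [hDdiag, Matrix.det_diagonal] at h1
        rw [← Finset.mul_prod_erase _ _ (Finset.mem_univ p),
          ← Finset.mul_prod_erase _ _ (Finset.mem_erase.2 ⟨hpq.symm, Finset.mem_univ q⟩),
          Finset.prod_eq_one] at h1
        · simpa [hpq.symm] using h1
        · intro i hi
          simp only [Finset.mem_erase, Finset.mem_univ, and_true] at hi
          rw [if_neg hi.2, if_neg hi.1]
      have hAD : A = SpecialLinearGroup.transvection hpq.symm (A q p * A p p) * D := by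
        rw [hD, ← mul_assoc, SpecialLinearGroup.transvection_mul_neg, one_mul]
      rw [hAD]
      refine mul_mem (hcl _ _) ?_
      rcases Int.isUnit_iff.1 (IsUnit.of_mul_eq_one _ e1) with h | h
      · have h2 : A q q = 1 := by rw [h, one_mul] at hdet; exact hdet
        have : D = 1 := by
          apply Subtype.ext
          rw [hDdiag]
          change _ = (1 : Matrix ι ι ℤ)
          rw [← Matrix.diagonal_one]
          congr 1
          ext i
          simp [h, h2]
        rw [this]
        exact one_mem _
      · have h2 : A q q = -1 := by rw [h] at hdet; linarith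
        have : w * (w * D) = 1 := by
          apply Subtype.ext
          ext x y
          change (w * (w * D)) x y = (1 : Matrix ι ι ℤ) x y
          have hD' : ∀ x y, D x y = Matrix.diagonal
            (fun i => if i = p then A p p else if i = q then A q q else 1) x y := fun x y => by
              rw [← hDdiag]
          rw [hw', hw', hw', hw', hD', hD', hD', Matrix.one_apply, Matrix.diagonal_apply,
            Matrix.diagonal_apply, Matrix.diagonal_apply]
          by_cases hx : x = p
          · subst hx
            simp [hpq.symm, h]
            split_ifs <;> simp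
          · by_cases hxq : x = q
            · subst hxq
              simp [hpq.symm, h2]
              split_ifs <;> simp
            · simp [hx, hxq]
        have h3 : D = w⁻¹ * w⁻¹ := by
          rw [← mul_assoc] at this
          rw [← _root_.mul_inv_rev]
          exact eq_inv_of_mul_eq_one_right this
        rw [h3]
        exact mul_mem (inv_mem hw) (inv_mem hw)
    · -- Euclid
      set A' := SpecialLinearGroup.transvection hpq.symm (-(A q q / A p q)) * A with hA'
      have hA'X : A' ∈ X ({p, q} : Finset ι) := mul_mem_X (tv_mem_X _ _ (by simp) (by simp)) hA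
      have h1 : (w * A') p q = A q q % A p q := by
        rw [hw', if_pos rfl, hA', tv_mul_apply, if_pos rfl, Int.emod_def]
        ring
      have h2 : ((w * A') p q).natAbs < m := by
        rw [h1, ← hm]
        have h3 := Int.emod_lt_abs (A q q) hb
        rw [Int.abs_eq_natAbs] at h3
        have h4 := Int.emod_nonneg (A q q) hb
        omega
      have h5 := ih _ h2 (w * A') (mul_mem_X hwX hA'X) rfl
      have h6 : A = SpecialLinearGroup.transvection hpq.symm (A q q / A p q) *
          (w⁻¹ * (w * A')) := by
        rw [inv_mul_cancel_left, hA', ← mul_assoc, SpecialLinearGroup.transvection_mul_neg,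
          one_mul]
      rw [h6]
      exact mul_mem (hcl _ _) (mul_mem (inv_mem hw) h5)

lemma pow_T_subset (r : ℕ) : T ι ^ r ⊆ (Subgroup.closure (T ι) : Set (SpecialLinearGroup ι ℤ)) := by
  induction r with
  | zero =>
    rintro x hx
    rw [pow_zero, Set.mem_one] at hx
    rw [hx]
    exact one_mem _
  | succ r ih =>
    rw [pow_succ]
    rintro _ ⟨a, ha, b, hb, rfl⟩
    exact mul_mem (ih ha) (Subgroup.subset_closure hb)

lemma closure_T (p q : ι) (hpq : p ≠ q) : Subgroup.closure (T ι) = ⊤ := by
  rw [eq_top_iff]
  rintro A -
  obtain ⟨r, hr⟩ := reduce p q hpq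
  obtain ⟨g, hg, h, hh, B, hB, rfl⟩ := hr A
  exact mul_mem (mul_mem (pow_T_subset r hg) (block_mem_closure p q hpq _ B hB rfl))
    (pow_T_subset r hh)

/-! ### Commutation -/

lemma block_mul_tv {p q : ι} (hpq : p ≠ q) {B : SpecialLinearGroup ι ℤ}
    (hB : B ∈ X ({p, q} : Finset ι)) {j : ι} (hjp : p ≠ j) (hjq : q ≠ j) (t : ℤ) :
    B * SpecialLinearGroup.transvection hjp t =
      SpecialLinearGroup.transvection hjp (B p p * t) *
        (SpecialLinearGroup.transvection hjq (B q p * t) * B) := by
  apply Subtype.ext
  ext x y
  change (B * SpecialLinearGroup.transvection hjp t) x y =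
    (SpecialLinearGroup.transvection hjp (B p p * t) *
        (SpecialLinearGroup.transvection hjq (B q p * t) * B)) x y
  have hj : j ∉ ({p, q} : Finset ι) := by simp [hjp.symm, hjq.symm]
  rw [mul_tv_apply, tv_mul_apply, tv_mul_apply, tv_mul_apply]
  rw [if_neg (show ¬ j = q from hjq.symm), hB j y (Or.inl hj)]
  by_cases hx : x = p
  · subst hx
    rw [if_pos rfl, if_neg hpq]
    by_cases hy : y = j
    · subst hy; simp; ring
    · simp [hy, Ne.symm hy]
  · by_cases hxq : x = q
    · subst hxq
      rw [if_pos rfl, if_neg hx]
      by_cases hy : y = j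
      · subst hy; simp; ring
      · simp [hy, Ne.symm hy]
    · rw [if_neg hx, if_neg hxq, hB x p (Or.inl (by simp [hx, hxq])), if_neg hx]
      simp

lemma tv_mul_block {p q : ι} (hpq : p ≠ q) {B : SpecialLinearGroup ι ℤ}
    (hB : B ∈ X ({p, q} : Finset ι)) {j : ι} (hjp : j ≠ p) (hjq : j ≠ q) (t : ℤ) :
    SpecialLinearGroup.transvection hjp t * B =
      (B * SpecialLinearGroup.transvection hjq (t * B p q)) *
        SpecialLinearGroup.transvection hjp (t * B p p) := by
  apply Subtype.ext
  ext x y
  change (SpecialLinearGroup.transvection hjp t * B) x y =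
    ((B * SpecialLinearGroup.transvection hjq (t * B p q)) *
        SpecialLinearGroup.transvection hjp (t * B p p)) x y
  have hj : j ∉ ({p, q} : Finset ι) := by simp [hjp, hjq]
  rw [tv_mul_apply, mul_tv_apply, mul_tv_apply, mul_tv_apply]
  rw [if_neg (show ¬ j = q from hjq), hB x j (Or.inr hj)]
  by_cases hy : y = p
  · subst hy
    rw [if_pos rfl, if_neg hpq]
    by_cases hx : x = j
    · subst hx; simp
    · simp [hx]
  · by_cases hyq : y = q
    · subst hyq
      rw [if_pos rfl, if_neg hy]
      by_cases hx : x = j
      · subst hx; simp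
      · simp [hx]
    · rw [if_neg hy, if_neg hyq, hB p y (Or.inr (by simp [hy, hyq])), if_neg (Ne.symm hy)]
      simp

lemma block_comm_tv {p q : ι} {B : SpecialLinearGroup ι ℤ}
    (hB : B ∈ X ({p, q} : Finset ι)) {i j : ι} (hij : i ≠ j) (hip : i ≠ p) (hiq : i ≠ q)
    (hjp : j ≠ p) (hjq : j ≠ q) (t : ℤ) :
    B * SpecialLinearGroup.transvection hij t = SpecialLinearGroup.transvection hij t * B := by
  apply Subtype.ext
  ext x y
  change (B * SpecialLinearGroup.transvection hij t) x y =
    (SpecialLinearGroup.transvection hij t * B) x y
  have hj : j ∉ ({p, q} : Finset ι) := by simp [hjp, hjq]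
  have hi : i ∉ ({p, q} : Finset ι) := by simp [hip, hiq]
  rw [tv_mul_apply, mul_tv_apply, hB j y (Or.inl hj), hB x i (Or.inr hi)]
  by_cases hx : x = i <;> by_cases hy : y = j
  · simp [hx, hy]
  · simp [hx, hy, Ne.symm hy]
  · simp [hx, hy]
  · simp [hx, hy]

/-- the commutator relation -/
lemma tv_comm {i j k : ι} (hij : i ≠ j) (hjk : j ≠ k) (hik : i ≠ k) (s t : ℤ) :
    SpecialLinearGroup.transvection hij s * SpecialLinearGroup.transvection hjk t =
      SpecialLinearGroup.transvection hik (s * t) *
      (SpecialLinearGroup.transvection hjk t * SpecialLinearGroup.transvection hij s) := by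
  apply Subtype.ext
  ext x y
  have e1 : (SpecialLinearGroup.transvection hij s * SpecialLinearGroup.transvection hjk t) =
    (SpecialLinearGroup.transvection hij s * (SpecialLinearGroup.transvection hjk t * 1)) := by
    rw [mul_one]
  have e2 : SpecialLinearGroup.transvection hik (s * t) *
      (SpecialLinearGroup.transvection hjk t * SpecialLinearGroup.transvection hij s) =
    SpecialLinearGroup.transvection hik (s * t) *
      (SpecialLinearGroup.transvection hjk t * (SpecialLinearGroup.transvection hij s * 1)) := by
    rw [mul_one]
  rw [e1, e2]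
  change (SpecialLinearGroup.transvection hij s *
    (SpecialLinearGroup.transvection hjk t * 1)) x y =
    (SpecialLinearGroup.transvection hik (s * t) *
      (SpecialLinearGroup.transvection hjk t *
        (SpecialLinearGroup.transvection hij s * 1))) x y
  simp only [tv_mul_apply, one_ap]
  by_cases hx : x = i
  · subst hx
    simp only [hij, hik, hij.symm, hjk.symm, hik.symm, if_true, if_false]
    by_cases h1 : k = y <;> by_cases h2 : j = y <;> simp [h1, h2] <;> ring
  · by_cases hx2 : x = j
    · subst hx2
      simp [hij, hjk, hik, hij.symm, hjk.symm, hik.symm]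
    · simp [hx, hx2]

end Pool.Agent.TH567.PR
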