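import Pool.Agent.TH567.PR.Gen

/-! A homomorphism from `SL_ι(ℤ)`, `|ι| ≥ 3`, which kills the `N`-th powers of the elementary
matrices has finite image. -/

namespace Pool.Agent.TH567.PR

open Matrix
open scoped Pointwise commutatorElement

variable {ι : Type*} [Fintype ι] [DecidableEq ι] {G : Type*} [Group G]

lemma finite_pow' {S : Set G} (h : S.Finite) (n : ℕ) : (S ^ n).Finite := by
  induction n with
  | zero => rw [pow_zero]; exact Set.finite_one
  | succ n ih => rw [pow_succ]; exact ih.mul h

section kill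

variable (ψ : SpecialLinearGroup ι ℤ →* G) (N : ℕ)
  (hψ : ∀ (i j : ι) (h : i ≠ j), ψ (SpecialLinearGroup.transvection h (N : ℤ)) = 1)

include hψ

lemma psi_mul {i j : ι} (h : i ≠ j) (k : ℤ) :
    ψ (SpecialLinearGroup.transvection h (N * k)) = 1 := by
  induction k using Int.induction_on with
  | zero => simp
  | succ k ih => rw [mul_add, mul_one, SpecialLinearGroup.transvection_add, map_mul, ih, hψ,
      mul_one]
  | pred k ih =>
    have : (N : ℤ) * (-(k : ℤ)) = N * (-(k : ℤ) - 1) + N := by ring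
    rw [this, SpecialLinearGroup.transvection_add, map_mul, hψ, mul_one] at ih
    exact ih

lemma psi_congr {i j : ι} (h : i ≠ j) {s t : ℤ} (hst : (N : ℤ) ∣ s - t) :
    ψ (SpecialLinearGroup.transvection h s) = ψ (SpecialLinearGroup.transvection h t) := by
  obtain ⟨k, hk⟩ := hst
  have : s = t + N * k := by linarith
  rw [this, SpecialLinearGroup.transvection_add, map_mul, psi_mul ψ N hψ, mul_one]

lemma image_T_finite (hN : N ≠ 0) : (ψ '' T ι).Finite := by
  have : ψ '' T ι ⊆ ⋃ (i : ι) (j : ι), Set.range (fun s : Fin N =>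
      if h : i ≠ j then ψ (SpecialLinearGroup.transvection h ((s : ℕ) : ℤ)) else 1) := by
    rintro _ ⟨_, ⟨i, j, h, t, rfl⟩, rfl⟩
    simp only [Set.mem_iUnion, Set.mem_range]
    have hN' : (0 : ℤ) < N := by exact_mod_cast Nat.pos_of_ne_zero hN
    refine ⟨i, j, ⟨(t % N).toNat, ?_⟩, ?_⟩
    · have h1 := Int.emod_lt_of_pos t hN'
      have h2 := Int.emod_nonneg t hN'.ne'
      omega
    · rw [dif_pos h]
      apply psi_congr ψ N hψ
      have h2 := Int.emod_nonneg t hN'.ne'
      rw [Int.toNat_of_nonneg h2]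
      exact (Int.dvd_sub_self_of_emod_eq (by simp) : (N : ℤ) ∣ t % N - t)
  refine Set.Finite.subset ?_ this
  refine Set.finite_iUnion fun i => Set.finite_iUnion fun j => Set.finite_range _

/-- blocks congruent to one commute with the elementary matrices -/
lemma block_commute {p q r : ι} (hpq : p ≠ q) (hrp : r ≠ p) (hrq : r ≠ q)
    {B : SpecialLinearGroup ι ℤ} (hB : B ∈ X ({p, q} : Finset ι))
    (h1 : (N : ℤ) ∣ B p p - 1) (h2 : (N : ℤ) ∣ B p q) (h3 : (N : ℤ) ∣ B q p)
    (h4 : (N : ℤ) ∣ B q q - 1) {i j : ι} (hij : i ≠ j) (t : ℤ) :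
    Commute (ψ B) (ψ (SpecialLinearGroup.transvection hij t)) := by
  have hB' : B ∈ X ({q, p} : Finset ι) := by rwa [Finset.pair_comm]
  -- outside index
  have col : ∀ (p q : ι) (_ : p ≠ q) (_ : B ∈ X ({p, q} : Finset ι))
      (_ : (N : ℤ) ∣ B p p - 1) (_ : (N : ℤ) ∣ B q p) (j : ι) (hjp : p ≠ j) (_ : q ≠ j) (t : ℤ),
      Commute (ψ B) (ψ (SpecialLinearGroup.transvection hjp t)) := by
    intro p q hpq hB h1 h3 j hjp hjq t
    change _ * _ = _ * _
    rw [← map_mul, block_mul_tv hpq hB hjp hjq, map_mul, map_mul]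
    have e1 : ψ (SpecialLinearGroup.transvection hjp (B p p * t)) =
        ψ (SpecialLinearGroup.transvection hjp t) :=
      psi_congr ψ N hψ hjp (by
        have : B p p * t - t = (B p p - 1) * t := by ring
        rw [this]
        exact h1.mul_right _)
    have e2 : ψ (SpecialLinearGroup.transvection hjq (B q p * t)) = 1 := by
      have := psi_congr ψ N hψ hjq (s := B q p * t) (t := 0) (by
        rw [sub_zero]
        exact h3.mul_right _)
      rw [this]
      simp
    rw [e1, e2, one_mul]
  have row : ∀ (p q : ι) (_ : p ≠ q) (_ : B ∈ X ({p, q} : Finset ι))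
      (_ : (N : ℤ) ∣ B p p - 1) (_ : (N : ℤ) ∣ B p q) (j : ι) (hjp : j ≠ p) (_ : j ≠ q) (t : ℤ),
      Commute (ψ B) (ψ (SpecialLinearGroup.transvection hjp t)) := by
    intro p q hpq hB h1 h3 j hjp hjq t
    refine Commute.symm ?_
    change _ * _ = _ * _
    rw [← map_mul, tv_mul_block hpq hB hjp hjq, map_mul, map_mul]
    have e1 : ψ (SpecialLinearGroup.transvection hjp (t * B p p)) =
        ψ (SpecialLinearGroup.transvection hjp t) :=
      psi_congr ψ N hψ hjp (by
        have : t * B p p - t = (B p p - 1) * t := by ring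
        rw [this]
        exact h1.mul_right _)
    have e2 : ψ (SpecialLinearGroup.transvection hjq (t * B p q)) = 1 := by
      have := psi_congr ψ N hψ hjq (s := t * B p q) (t := 0) (by
        rw [sub_zero]
        exact h3.mul_left _)
      rw [this]
      simp
    rw [e1, e2, mul_one]
  have comm : ∀ (i j : ι) (hij : i ≠ j) (_ : i ≠ r) (_ : r ≠ j) (t : ℤ)
      (_ : ∀ s, Commute (ψ B) (ψ (SpecialLinearGroup.transvection ‹i ≠ r› s)))
      (_ : ∀ s, Commute (ψ B) (ψ (SpecialLinearGroup.transvection ‹r ≠ j› s))),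
      Commute (ψ B) (ψ (SpecialLinearGroup.transvection hij t)) := by
    intro i j hij hir hrj t ha hb
    have e := tv_comm hir hrj hij t 1
    have e2 : SpecialLinearGroup.transvection hij t =
        SpecialLinearGroup.transvection hir t * SpecialLinearGroup.transvection hrj 1 *
        (SpecialLinearGroup.transvection hrj 1 * SpecialLinearGroup.transvection hir t)⁻¹ := by
      rw [e, mul_one, mul_inv_cancel_right]
    rw [e2, map_mul, map_mul, map_inv, map_mul]
    exact ((ha t).mul_right (hb 1)).mul_right (((hb 1).mul_right (ha t)).inv_right)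
  by_cases hip : i = p
  · subst hip
    by_cases hjq : j = q
    · subst hjq
      exact comm i j hij hrp.symm hrq t (col i j hpq hB h1 h3 r hrp.symm hrq.symm)
        (row j i hpq.symm hB' h4 h3 r hrq hrp)
    · exact col i q hpq hB h1 h3 j hij (Ne.symm hjq) t
  · by_cases hiq : i = q
    · subst hiq
      by_cases hjp : j = p
      · subst hjp
        exact comm i j hij hrq.symm hrp t (col i j hpq.symm hB' h4 h2 r hrq.symm hrp.symm)
          (row j i hpq hB h1 h2 r hrp hrq)
      · exact col i p hpq.symm hB' h4 h2 j hij (Ne.symm hjp) t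
    · by_cases hjp : j = p
      · subst hjp
        exact row j q hpq hB h1 h2 i hij hiq t
      · by_cases hjq : j = q
        · subst hjq
          exact row j p hpq.symm hB' h4 h3 i hij hip t
        · change _ * _ = _ * _
          rw [← map_mul, ← map_mul, block_comm_tv hB hij hip hiq hjp hjq]

/-- if `ψ` is onto, blocks congruent to one have central image -/
lemma block_central (hsurj : Function.Surjective ψ) {p q r : ι} (hpq : p ≠ q) (hrp : r ≠ p)
    (hrq : r ≠ q) {B : SpecialLinearGroup ι ℤ} (hB : B ∈ X ({p, q} : Finset ι))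
    (h1 : (N : ℤ) ∣ B p p - 1) (h2 : (N : ℤ) ∣ B p q) (h3 : (N : ℤ) ∣ B q p)
    (h4 : (N : ℤ) ∣ B q q - 1) : ψ B ∈ Subgroup.center G := by
  rw [Subgroup.mem_center_iff]
  intro g
  obtain ⟨A, rfl⟩ := hsurj g
  have hA : A ∈ Subgroup.closure (T ι) := by rw [closure_T p q hpq]; trivial
  have : Commute (ψ B) (ψ A) := by
    induction hA using Subgroup.closure_induction with
    | mem x hx =>
      obtain ⟨i, j, h, t, rfl⟩ := hx
      exact block_commute ψ N hψ hpq hrp hrq hB h1 h2 h3 h4 h t
    | one => rw [map_one]; exact Commute.one_right _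
    | mul x y _ _ hx hy => rw [map_mul]; exact hx.mul_right hy
    | inv x _ hx => rw [map_inv]; exact hx.inv_right
  exact this.symm

lemma finite_quot_center (hN : N ≠ 0) (hsurj : Function.Surjective ψ) {p q r : ι} (hpq : p ≠ q)
    (hrp : r ≠ p) (hrq : r ≠ q) : Finite (G ⧸ Subgroup.center G) := by
  have : NeZero N := ⟨hN⟩
  let π : G →* G ⧸ Subgroup.center G := QuotientGroup.mk' _
  have hY : ((fun B => π (ψ B)) '' X ({p, q} : Finset ι)).Finite := by
    classical
    let red : SpecialLinearGroup ι ℤ →* SpecialLinearGroup ι (ZMod N) :=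
      SpecialLinearGroup.map (Int.castRingHom (ZMod N))
    let c : SpecialLinearGroup ι (ZMod N) → G ⧸ Subgroup.center G := fun s =>
      if h : ∃ B ∈ X ({p, q} : Finset ι), red B = s then π (ψ h.choose) else 1
    have : Finite (SpecialLinearGroup ι (ZMod N)) :=
      Finite.of_injective (fun A : SpecialLinearGroup ι (ZMod N) => (A : Matrix ι ι (ZMod N)))
        Subtype.val_injective
    refine Set.Finite.subset (Set.finite_range c) ?_
    rintro _ ⟨B, hB, rfl⟩
    refine ⟨red B, ?_⟩
    have hex : ∃ B' ∈ X ({p, q} : Finset ι), red B' = red B := ⟨B, hB, rfl⟩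
    change (if h : ∃ B' ∈ X ({p, q} : Finset ι), red B' = red B then π (ψ h.choose) else 1) = _
    rw [dif_pos hex]
    obtain ⟨hC, hred⟩ := hex.choose_spec
    set C := hex.choose
    -- C and B agree mod N
    have hCX : C⁻¹ * B ∈ X ({p, q} : Finset ι) := by
      refine mul_mem_X ?_ hB
      -- inverse of a block
      intro x y hxy
      have hinv : ∀ x y, (C * C⁻¹ : SpecialLinearGroup ι ℤ) x y = if x = y then 1 else 0 :=
        fun x y => by rw [mul_inv_cancel]; exact one_ap x y
      have hinv' : ∀ x y, (C⁻¹ * C : SpecialLinearGroup ι ℤ) x y = if x = y then 1 else 0 :=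
        fun x y => by rw [inv_mul_cancel]; exact one_ap x y
      rcases hxy with hx | hy
      · have h1 := hinv x y
        have h2 : (C * C⁻¹ : SpecialLinearGroup ι ℤ) x y = C⁻¹ x y := by
          change ((C : Matrix ι ι ℤ) * ((C⁻¹ : SpecialLinearGroup ι ℤ) : Matrix ι ι ℤ)) x y = _
          rw [Matrix.mul_apply, Finset.sum_eq_single x]
          · rw [hC x x (Or.inl hx), if_pos rfl, one_mul]
          · intro z _ hz
            rw [hC x z (Or.inl hx), if_neg (Ne.symm hz), zero_mul]
          · simp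
        rw [← h2, h1]
      · have h1 := hinv' x y
        have h2 : (C⁻¹ * C : SpecialLinearGroup ι ℤ) x y = C⁻¹ x y := by
          change (((C⁻¹ : SpecialLinearGroup ι ℤ) : Matrix ι ι ℤ) * (C : Matrix ι ι ℤ)) x y = _
          rw [Matrix.mul_apply, Finset.sum_eq_single y]
          · rw [hC y y (Or.inr hy), if_pos rfl, mul_one]
          · intro z _ hz
            rw [hC z y (Or.inr hy), if_neg hz, mul_zero]
          · simp
        rw [← h2, h1]
    have hred1 : red (C⁻¹ * B) = 1 := by rw [map_mul, map_inv, hred, inv_mul_cancel]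
    have hent : ∀ x y, (((C⁻¹ * B : SpecialLinearGroup ι ℤ) x y : ℤ) : ZMod N) =
        if x = y then 1 else 0 := fun x y => by
      have h := congrArg (fun A : SpecialLinearGroup ι (ZMod N) => (A : Matrix ι ι (ZMod N)) x y)
        hred1
      change (((C⁻¹ * B : SpecialLinearGroup ι ℤ) x y : ℤ) : ZMod N) =
        (1 : Matrix ι ι (ZMod N)) x y at h
      rw [Matrix.one_apply] at h
      exact h
    have hcen : ψ (C⁻¹ * B) ∈ Subgroup.center G := by
      refine block_central ψ N hψ hsurj hpq hrp hrq hCX ?_ ?_ ?_ ?_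
      · rw [← ZMod.intCast_zmod_eq_zero_iff_dvd, Int.cast_sub, hent, if_pos rfl, Int.cast_one,
          sub_self]
      · rw [← ZMod.intCast_zmod_eq_zero_iff_dvd, hent, if_neg hpq]
      · rw [← ZMod.intCast_zmod_eq_zero_iff_dvd, hent, if_neg hpq.symm]
      · rw [← ZMod.intCast_zmod_eq_zero_iff_dvd, Int.cast_sub, hent, if_pos rfl, Int.cast_one,
          sub_self]
    rw [map_mul, map_inv] at hcen
    exact QuotientGroup.eq.2 hcen
  obtain ⟨r', hr'⟩ := reduce p q hpq
  have hT : ((fun B => π (ψ B)) '' (T ι ^ r')).Finite := by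
    have e : (fun B => π (ψ B)) '' (T ι ^ r') = π '' ((ψ '' T ι) ^ r') := by
      rw [← Set.image_pow]
      ext x
      simp [Set.mem_image]
    rw [e]
    exact (finite_pow' (image_T_finite ψ N hψ hN) _).image _
  have hall : (Set.univ : Set (G ⧸ Subgroup.center G)).Finite := by
    refine Set.Finite.subset ((hT.mul hY).mul hT) ?_
    rintro x -
    obtain ⟨g, rfl⟩ := QuotientGroup.mk'_surjective _ x
    obtain ⟨A, rfl⟩ := hsurj g
    obtain ⟨a, ha, b, hb, B, hB, rfl⟩ := hr' A
    refine ⟨π (ψ (a * B)), ⟨π (ψ a), ⟨a, ha, rfl⟩, π (ψ B), ⟨B, hB, rfl⟩, ?_⟩, π (ψ b),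
      ⟨b, hb, rfl⟩, ?_⟩
    · simp
    · simp [π]
  exact Set.finite_univ_iff.1 hall

end kill

/-- Schur: a perfect group with centre of finite index is finite -/
lemma finite_of_perfect_of_center (hp : _root_.commutator G = ⊤)
    [Finite (G ⧸ Subgroup.center G)] : Finite G := by
  have : Finite (commutatorSet G) := by
    let f : (G ⧸ Subgroup.center G) × (G ⧸ Subgroup.center G) → G := fun x =>
      ⁅Quotient.out x.1, Quotient.out x.2⁆
    refine Set.Finite.subset (Set.finite_range f) ?_
    rintro _ ⟨a, b, rfl⟩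
    refine ⟨(QuotientGroup.mk a, QuotientGroup.mk b), ?_⟩
    change ⁅Quotient.out (QuotientGroup.mk a : G ⧸ Subgroup.center G),
      Quotient.out (QuotientGroup.mk b : G ⧸ Subgroup.center G)⁆ = ⁅a, b⁆
    obtain ⟨z, hz⟩ := QuotientGroup.mk_out_eq_mul (Subgroup.center G) a
    obtain ⟨w, hw⟩ := QuotientGroup.mk_out_eq_mul (Subgroup.center G) b
    rw [hz, hw]
    have hz' := Subgroup.mem_center_iff.1 z.2
    have hw' := Subgroup.mem_center_iff.1 w.2
    simp only [commutatorElement_def, _root_.mul_inv_rev]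
    have e1 : a * (z : G) * (b * (w : G)) * ((z : G)⁻¹ * a⁻¹) * ((w : G)⁻¹ * b⁻¹) =
      a * ((z : G) * (b * (w : G)) * (z : G)⁻¹) * a⁻¹ * ((w : G)⁻¹ * b⁻¹) := by group
    have e2 : (z : G) * (b * (w : G)) * (z : G)⁻¹ = b * w := by
      rw [← hz' (b * w), mul_inv_cancel_right]
    rw [e1, e2]
    have e3 : a * (b * (w : G)) * a⁻¹ * ((w : G)⁻¹ * b⁻¹) =
      a * b * ((w : G) * a⁻¹ * (w : G)⁻¹) * b⁻¹ := by group
    have e4 : (w : G) * a⁻¹ * (w : G)⁻¹ = a⁻¹ := by
      rw [← hw' a⁻¹, mul_inv_cancel_right]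
    rw [e3, e4]
  have : Finite (_root_.commutator G) := inferInstance
  rw [hp] at this
  exact Finite.of_equiv _ (Subgroup.topEquiv (G := G)).toEquiv

/-- **Finiteness.** If the elementary matrices have images of finite order, the image of
`SL_ι(ℤ)`, `|ι| ≥ 3`, is finite. -/
theorem finite_range_of_kill (hι : 3 ≤ Fintype.card ι) (ψ : SpecialLinearGroup ι ℤ →* G) (N : ℕ)
    (hN : N ≠ 0)
    (hψ : ∀ (i j : ι) (h : i ≠ j), ψ (SpecialLinearGroup.transvection h (N : ℤ)) = 1) :
    Finite ψ.range := by
  obtain ⟨p, q, r, hpq, hpr, hqr⟩ := Fintype.two_lt_card_iff.1 (show 2 < Fintype.card ι from hι)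
  let φ := ψ.rangeRestrict
  have hφs : Function.Surjective φ := ψ.rangeRestrict_surjective
  have hφ : ∀ (i j : ι) (h : i ≠ j), φ (SpecialLinearGroup.transvection h (N : ℤ)) = 1 :=
    fun i j h => Subtype.ext (hψ i j h)
  have := finite_quot_center φ N hφ hN hφs hpq hpr.symm hqr.symm
  refine finite_of_perfect_of_center ?_
  rw [eq_top_iff]
  rintro x -
  obtain ⟨A, rfl⟩ := hφs x
  have hA : A ∈ Subgroup.closure (T ι) := by rw [closure_T p q hpq]; trivial
  induction hA using Subgroup.closure_induction with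
  | mem x hx =>
    obtain ⟨i, j, h, t, rfl⟩ := hx
    obtain ⟨k, hik, hkj⟩ : ∃ k, i ≠ k ∧ k ≠ j := by
      by_contra hcon
      push Not at hcon
      have h1 : Fintype.card ι ≤ ({i, j} : Finset ι).card := by
        rw [← Finset.card_univ]
        refine Finset.card_le_card fun k _ => ?_
        by_cases hk : i = k
        · simp [hk]
        · simp [hcon k hk]
      have h2 := Finset.card_le_two (a := i) (b := j)
      omega
    have e := tv_comm hik hkj h t 1
    rw [mul_one] at e
    have e2 : SpecialLinearGroup.transvection h t =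
        ⁅SpecialLinearGroup.transvection hik t, SpecialLinearGroup.transvection hkj 1⁆ := by
      rw [commutatorElement_def, e]
      group
    rw [e2, map_commutatorElement]
    exact Subgroup.commutator_mem_commutator (Subgroup.mem_top _) (Subgroup.mem_top _)
  | one => rw [map_one]; exact one_mem _
  | mul x y _ _ hx hy => rw [map_mul]; exact mul_mem hx hy
  | inv x _ hx => rw [map_inv]; exact inv_mem hx

end Pool.Agent.TH567.PR
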