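import Mathlib

/-! Families of unipotent operators satisfying the Steinberg relations need dimension at least
the number of indices, in characteristic zero. -/

namespace Pool.Agent.TH567.PR

open Module

universe u v

variable {ι : Type*} [DecidableEq ι] {K : Type u} [Field K]

/-- commuting unipotents have a common fixed vector -/
lemma common_fixed {V : Type v} [AddCommGroup V] [Module K V] [Nontrivial V]
    (L : Finset ι) (f : ι → End K V) (hu : ∀ l ∈ L, IsNilpotent (f l - 1))
    (hc : ∀ l ∈ L, ∀ k ∈ L, f l * f k = f k * f l) :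
    ∃ v : V, v ≠ 0 ∧ ∀ l ∈ L, f l v = v := by
  classical
  induction L using Finset.induction_on with
  | empty =>
    obtain ⟨v, hv⟩ := exists_ne (0 : V)
    exact ⟨v, hv, by simp⟩
  | insert a L _ ih =>
    obtain ⟨v₀, hv₀, hfix⟩ := ih (fun l hl => hu l (Finset.mem_insert_of_mem hl))
      (fun l hl k hk => hc l (Finset.mem_insert_of_mem hl) k (Finset.mem_insert_of_mem hk))
    obtain ⟨n, hn⟩ := hu a (Finset.mem_insert_self _ _)
    have hex : ∃ k : ℕ, ((f a - 1) ^ k) v₀ = 0 := ⟨n, by rw [hn]; rfl⟩
    set k := Nat.find hex with hk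
    have hk0 : ((f a - 1) ^ k) v₀ = 0 := Nat.find_spec hex
    have hkpos : k ≠ 0 := by
      intro h
      rw [h, pow_zero, Module.End.one_apply] at hk0
      exact hv₀ hk0
    refine ⟨((f a - 1) ^ (k - 1)) v₀, Nat.find_min hex (by omega), fun l hl => ?_⟩
    rcases Finset.mem_insert.1 hl with rfl | hl'
    · have e : (f l - 1) (((f l - 1) ^ (k - 1)) v₀) = 0 := by
        rw [← Module.End.mul_apply, ← pow_succ', Nat.sub_add_cancel (Nat.pos_of_ne_zero hkpos)]
        exact hk0
      rw [LinearMap.sub_apply, Module.End.one_apply, sub_eq_zero] at e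
      exact e
    · have hcom : Commute (f l) (f a - 1) := by
        refine Commute.sub_right ?_ (Commute.one_right _)
        exact hc l hl a (Finset.mem_insert_self _ _)
      have e : f l * (f a - 1) ^ (k - 1) = (f a - 1) ^ (k - 1) * f l := (hcom.pow_right _).eq
      rw [← Module.End.mul_apply, e, Module.End.mul_apply, hfix l hl']

/-- a unipotent of finite order is trivial in characteristic zero -/
lemma unip_pow_eq_one [CharZero K] {V : Type v} [AddCommGroup V] [Module K V] (f : End K V)
    (hf : IsNilpotent (f - 1)) (N : ℕ) (hN : N ≠ 0) (h : f ^ N = 1) : f = 1 := by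
  -- `f ^ N - 1 = (f - 1) * g` with `g = N + (f - 1) * (...)`
  by_contra hne
  obtain ⟨n, hn⟩ := hf
  have hex : ∃ k : ℕ, (f - 1) ^ k = 0 := ⟨n, hn⟩
  classical
  set k := Nat.find hex with hk
  have hk0 : (f - 1) ^ k = 0 := Nat.find_spec hex
  have hk2 : 2 ≤ k := by
    by_contra hlt
    have : k = 0 ∨ k = 1 := by omega
    rcases this with h0 | h0
    · rw [h0, pow_zero] at hk0
      apply hne
      calc f = f * 1 := (mul_one f).symm
        _ = 1 := by rw [hk0, mul_zero]
    · rw [h0, pow_one, sub_eq_zero] at hk0
      exact hne hk0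
  have hmin : (f - 1) ^ (k - 1) ≠ 0 := Nat.find_min hex (by omega)
  -- f ^ N * (f-1)^(k-2) = (f-1)^(k-2) + N (f-1)^(k-1)
  have key : ∀ M : ℕ, f ^ M * (f - 1) ^ (k - 2) = (f - 1) ^ (k - 2) + (M : K) • (f - 1) ^ (k - 1) := by
    intro M
    induction M with
    | zero => simp
    | succ M ih =>
      have e1 : f * (f - 1) ^ (k - 2) = (f - 1) ^ (k - 2) + (f - 1) ^ (k - 1) := by
        have : (f - 1) ^ (k - 1) = (f - 1) * (f - 1) ^ (k - 2) := by
          rw [← pow_succ']; congr 1; omega
        rw [this]
        noncomm_ring
      have e2 : f * (f - 1) ^ (k - 1) = (f - 1) ^ (k - 1) := by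
        have : (f - 1) * (f - 1) ^ (k - 1) = 0 := by
          rw [← pow_succ', Nat.sub_add_cancel (by omega)]
          exact hk0
        rw [sub_mul, one_mul, sub_eq_zero] at this
        exact this
      rw [pow_succ', mul_assoc, ih, mul_add, e1, mul_smul_comm, e2]
      push_cast
      rw [add_smul, one_smul]
      abel
  have h1 := key N
  rw [h, one_mul] at h1
  have h2 : (N : K) • (f - 1) ^ (k - 1) = 0 := by
    have := h1.symm
    rwa [add_eq_left] at this
  rcases smul_eq_zero.1 h2 with h3 | h3
  · exact hN (by exact_mod_cast h3)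
  · exact hmin h3

/-- the Steinberg relations of level `N` on the finite set `S` of indices -/
structure Stein {V : Type v} [AddCommGroup V] [Module K V] (N : ℕ) (S : Finset ι)
    (e : ι → ι → End K V) : Prop where
  unip : ∀ i ∈ S, ∀ j ∈ S, i ≠ j → IsNilpotent (e i j - 1)
  rel : ∀ i ∈ S, ∀ j ∈ S, ∀ k ∈ S, i ≠ j → j ≠ k → i ≠ k →
    e i j * e j k = e i k ^ N * (e j k * e i j)
  comm : ∀ i ∈ S, ∀ j ∈ S, ∀ k ∈ S, ∀ l ∈ S, i ≠ j → k ≠ l → j ≠ k → i ≠ l →
    e i j * e k l = e k l * e i j

omit [DecidableEq ι] in
lemma Stein.mono {V : Type v} [AddCommGroup V] [Module K V] {N : ℕ} {S S' : Finset ι}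
    {e : ι → ι → End K V} (h : Stein N S e) (hS : S' ⊆ S) : Stein N S' e :=
  ⟨fun i hi j hj => h.unip i (hS hi) j (hS hj),
   fun i hi j hj k hk => h.rel i (hS hi) j (hS hj) k (hS hk),
   fun i hi j hj k hk l hl => h.comm i (hS hi) j (hS hj) k (hS hk) l (hS hl)⟩

omit [DecidableEq ι] in
/-- passing to the quotient by an invariant subspace -/
lemma Stein.quot {V : Type v} [AddCommGroup V] [Module K V] {N : ℕ} {S : Finset ι}
    {e : ι → ι → End K V} (h : Stein N S e) (U : Submodule K V)
    (e' : ι → ι → End K (V ⧸ U))
    (he : ∀ i ∈ S, ∀ j ∈ S, i ≠ j → ∀ x, e' i j (U.mkQ x) = U.mkQ (e i j x)) : Stein N S e' := by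
  have ext' : ∀ f g : End K (V ⧸ U), (∀ x, f (U.mkQ x) = g (U.mkQ x)) → f = g := by
    intro f g hfg
    apply LinearMap.ext
    intro y
    obtain ⟨x, rfl⟩ := U.mkQ_surjective y
    exact hfg x
  have hpow : ∀ i ∈ S, ∀ j ∈ S, i ≠ j → ∀ (k : ℕ) x, (e' i j ^ k) (U.mkQ x) =
      U.mkQ ((e i j ^ k) x) := by
    intro i hi j hj hij k
    induction k with
    | zero => intro x; simp
    | succ k ih =>
      intro x
      rw [pow_succ, pow_succ, Module.End.mul_apply, Module.End.mul_apply, he i hi j hj hij, ih]
  refine ⟨fun i hi j hj hij => ?_, fun i hi j hj k hk h1 h2 h3 => ?_,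
    fun i hi j hj k hk l hl h1 h2 h3 h4 => ?_⟩
  · obtain ⟨n, hn⟩ := h.unip i hi j hj hij
    refine ⟨n, ext' _ _ fun x => ?_⟩
    have : ∀ (k : ℕ) x, ((e' i j - 1) ^ k) (U.mkQ x) = U.mkQ (((e i j - 1) ^ k) x) := by
      intro k
      induction k with
      | zero => intro x; simp
      | succ k ih =>
        intro x
        rw [pow_succ, pow_succ, Module.End.mul_apply, Module.End.mul_apply, LinearMap.sub_apply,
          he i hi j hj hij, Module.End.one_apply, ← map_sub, ih, LinearMap.sub_apply,
          Module.End.one_apply]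
    rw [this, hn]
    simp
  · apply ext'
    intro x
    have := congrArg (fun f : End K V => U.mkQ (f x)) (h.rel i hi j hj k hk h1 h2 h3)
    simp only [Module.End.mul_apply] at this ⊢
    rw [he j hj k hk h2, he i hi j hj h1, this, he i hi j hj h1, he j hj k hk h2,
      hpow i hi k hk h3]
  · apply ext'
    intro x
    have := congrArg (fun f : End K V => U.mkQ (f x)) (h.comm i hi j hj k hk l hl h1 h2 h3 h4)
    simp only [Module.End.mul_apply] at this ⊢
    rw [he k hk l hl h2, he i hi j hj h1, this, he i hi j hj h1, he k hk l hl h2]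

omit [DecidableEq ι] in
/-- passing to an invariant subspace -/
lemma Stein.sub {V : Type v} [AddCommGroup V] [Module K V] {N : ℕ} {S : Finset ι}
    {e : ι → ι → End K V} (h : Stein N S e) (W : Submodule K V)
    (e' : ι → ι → End K W)
    (he : ∀ i ∈ S, ∀ j ∈ S, i ≠ j → ∀ x : W, ((e' i j x : W) : V) = e i j x) : Stein N S e' := by
  have hpow : ∀ i ∈ S, ∀ j ∈ S, i ≠ j → ∀ (k : ℕ) (x : W), (((e' i j ^ k) x : W) : V) =
      (e i j ^ k) x := by
    intro i hi j hj hij k
    induction k with
    | zero => intro x; simp
    | succ k ih =>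
      intro x
      rw [pow_succ, pow_succ, Module.End.mul_apply, Module.End.mul_apply, ih, he i hi j hj hij]
  refine ⟨fun i hi j hj hij => ?_, fun i hi j hj k hk h1 h2 h3 => ?_,
    fun i hi j hj k hk l hl h1 h2 h3 h4 => ?_⟩
  · obtain ⟨n, hn⟩ := h.unip i hi j hj hij
    refine ⟨n, LinearMap.ext fun x => Subtype.ext ?_⟩
    have : ∀ (k : ℕ) (x : W), ((((e' i j - 1) ^ k) x : W) : V) = ((e i j - 1) ^ k) x := by
      intro k
      induction k with
      | zero => intro x; simp
      | succ k ih =>
        intro x
        rw [pow_succ, pow_succ, Module.End.mul_apply, Module.End.mul_apply, ih]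
        congr 1
        rw [LinearMap.sub_apply, LinearMap.sub_apply, Module.End.one_apply, Module.End.one_apply,
          Submodule.coe_sub, he i hi j hj hij]
    rw [this, hn]
    simp
  · refine LinearMap.ext fun x => Subtype.ext ?_
    have := congrArg (fun f : End K V => f x) (h.rel i hi j hj k hk h1 h2 h3)
    simp only [Module.End.mul_apply] at this ⊢
    rw [he i hi j hj h1, he j hj k hk h2, this, hpow i hi k hk h3, he j hj k hk h2,
      he i hi j hj h1]
  · refine LinearMap.ext fun x => Subtype.ext ?_
    have := congrArg (fun f : End K V => f x) (h.comm i hi j hj k hk l hl h1 h2 h3 h4)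
    simp only [Module.End.mul_apply] at this ⊢
    rw [he i hi j hj h1, he k hk l hl h2, this, he k hk l hl h2, he i hi j hj h1]

lemma quot_nilp {V : Type v} [AddCommGroup V] [Module K V] (U : Submodule K V) (f : End K V)
    (f' : End K (V ⧸ U)) (he : ∀ x, f' (U.mkQ x) = U.mkQ (f x)) (h : IsNilpotent (f - 1)) :
    IsNilpotent (f' - 1) := by
  obtain ⟨n, hn⟩ := h
  refine ⟨n, LinearMap.ext fun y => ?_⟩
  obtain ⟨x, rfl⟩ := U.mkQ_surjective y
  have : ∀ (k : ℕ) x, ((f' - 1) ^ k) (U.mkQ x) = U.mkQ (((f - 1) ^ k) x) := by
    intro k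
    induction k with
    | zero => intro x; simp
    | succ k ih =>
      intro x
      rw [pow_succ, pow_succ, Module.End.mul_apply, Module.End.mul_apply, LinearMap.sub_apply,
        he, Module.End.one_apply, ← map_sub, ih, LinearMap.sub_apply, Module.End.one_apply]
  rw [this, hn]
  simp

lemma quot_comm {V : Type v} [AddCommGroup V] [Module K V] (U : Submodule K V) (f g : End K V)
    (f' g' : End K (V ⧸ U)) (hf : ∀ x, f' (U.mkQ x) = U.mkQ (f x))
    (hg : ∀ x, g' (U.mkQ x) = U.mkQ (g x)) (h : f * g = g * f) : f' * g' = g' * f' := by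
  refine LinearMap.ext fun y => ?_
  obtain ⟨x, rfl⟩ := U.mkQ_surjective y
  rw [Module.End.mul_apply, Module.End.mul_apply, hg, hf, hf, hg]
  exact congrArg (fun c : End K V => U.mkQ (c x)) h

/-- the common fixed vectors of the `e a l`, `l ∈ S'` -/
def fixed {V : Type v} [AddCommGroup V] [Module K V] (S' : Finset ι) (e : ι → ι → End K V)
    (a : ι) : Submodule K V where
  carrier := {v | ∀ l ∈ S', e a l v = v}
  add_mem' := fun {x y} hx hy l hl => by rw [map_add, hx l hl, hy l hl]
  zero_mem' := fun l _ => map_zero _
  smul_mem' := fun c x hx l hl => by rw [map_smul, hx l hl]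

lemma pow_fix {V : Type v} [AddCommGroup V] [Module K V] (f : End K V) (v : V) (h : f v = v)
    (n : ℕ) : (f ^ n) v = v := by
  induction n with
  | zero => simp
  | succ n ih => rw [pow_succ, Module.End.mul_apply, h, ih]

/-- the fixed space is invariant -/
lemma fixed_inv {V : Type v} [AddCommGroup V] [Module K V] {N : ℕ} {S : Finset ι}
    {e : ι → ι → End K V} (h : Stein N S e) {a : ι} (ha : a ∈ S) {i j : ι} (hi : i ∈ S)
    (hj : j ∈ S.erase a) (hij : i ≠ j) :
    fixed (S.erase a) e a ≤ (fixed (S.erase a) e a).comap (e i j) := by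
  intro v hv l hl
  have hlS := Finset.mem_of_mem_erase hl
  have hjS := Finset.mem_of_mem_erase hj
  have hla : l ≠ a := Finset.ne_of_mem_erase hl
  have hja : j ≠ a := Finset.ne_of_mem_erase hj
  by_cases hia : i = a
  · subst hia
    rw [hv j hj, hv l hl]
  by_cases hli : l = i
  · subst hli
    have e1 := congrArg (fun f : End K V => f v)
      (h.rel a ha l hlS j hjS (Ne.symm hla) hij (Ne.symm hja))
    simp only [Module.End.mul_apply] at e1
    rw [e1, hv l hl, ← Module.End.mul_apply]
    have hc : Commute (e a j) (e l j) := h.comm a ha j hjS l hi j hjS (Ne.symm hja) hij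
      (Ne.symm hij) (Ne.symm hja)
    rw [(hc.pow_left N).eq, Module.End.mul_apply, pow_fix _ _ (hv j hj)]
  · have e1 := congrArg (fun f : End K V => f v)
      (h.comm a ha l hlS i hi j hjS (Ne.symm hla) hij hli (Ne.symm hja))
    simp only [Module.End.mul_apply] at e1
    rw [e1, hv l hl]

/-- **Dimension bound.** -/
theorem stein_trivial [CharZero K] (N : ℕ) (hN : N ≠ 0) (s : ℕ) (hs : 2 ≤ s) :
    ∀ (S : Finset ι), S.card = s → ∀ (V : Type v) [AddCommGroup V] [Module K V]
      [FiniteDimensional K V] (e : ι → ι → End K V), Stein N S e → finrank K V < s →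
      ∀ i ∈ S, ∀ j ∈ S, i ≠ j → e i j = 1 := by
  classical
  induction s, hs using Nat.le_induction with
  | base =>
    intro S _ V _ _ _ e h hV i hi j hj hij
    rcases subsingleton_or_nontrivial V with hsub | hnt
    · exact LinearMap.ext fun x => Subsingleton.elim _ _
    · obtain ⟨n, hn⟩ := h.unip i hi j hj hij
      have hr : LinearMap.range (e i j - 1) < ⊤ := by
        rw [lt_top_iff_ne_top]
        intro htop
        have hsur : Function.Surjective ⇑(e i j - 1 : End K V) := LinearMap.range_eq_top.1 htop
        have : Function.Surjective ⇑((e i j - 1 : End K V) ^ n) := by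
          rw [Module.End.coe_pow]
          exact hsur.iterate n
        rw [hn] at this
        obtain ⟨x, hx⟩ := exists_ne (0 : V)
        obtain ⟨y, hy⟩ := this x
        exact hx (by rw [← hy]; rfl)
      have h1 := Submodule.finrank_lt hr.ne
      have h2 : LinearMap.range (e i j - 1) = ⊥ := Submodule.finrank_eq_zero.1 (by omega)
      rw [LinearMap.range_eq_bot, sub_eq_zero] at h2
      exact h2
  | succ s hs ih =>
    intro S hSc V _ _ _ e h hV
    obtain ⟨a, ha⟩ : S.Nonempty := Finset.card_pos.1 (by omega)
    have hS' : (S.erase a).card = s := by rw [Finset.card_erase_of_mem ha, hSc]; rfl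
    set S' := S.erase a with hS'd
    have hsub : S' ⊆ S := Finset.erase_subset _ _
    have hne : ∀ l ∈ S', a ≠ l := fun l hl => (Finset.ne_of_mem_erase hl).symm
    rcases subsingleton_or_nontrivial V with hsubs | hnt
    · intro i _ j _ _
      exact LinearMap.ext fun x => Subsingleton.elim _ _
    set U := fixed S' e a with hU
    have hcomm : ∀ l ∈ S', ∀ k ∈ S', e a l * e a k = e a k * e a l := fun l hl k hk =>
      h.comm a ha l (hsub hl) a ha k (hsub hk) (hne l hl) (hne k hk) (hne l hl).symm (hne k hk)
    -- two distinct elements of S'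
    have hother : ∀ i : ι, ∃ j ∈ S', j ≠ i := by
      intro i
      by_contra hcon
      push Not at hcon
      have : S' ⊆ {i} := fun x hx => Finset.mem_singleton.2 (hcon x hx)
      have := Finset.card_le_card this
      rw [Finset.card_singleton] at this
      omega
    by_cases htop : U = ⊤
    · -- everything is trivial
      have h1 : ∀ l ∈ S', e a l = 1 := fun l hl => LinearMap.ext fun x => by
        have hx : x ∈ U := htop ▸ Submodule.mem_top
        exact hx l hl
      have h2 : ∀ i ∈ S', ∀ j ∈ S', i ≠ j → e i j = 1 := by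
        intro i hi j hj hij
        -- `e i a * e a j = e i j ^ N * (e a j * e i a)`
        have e1 := h.rel i (hsub hi) a ha j (hsub hj) (hne i hi).symm (hne j hj) hij
        rw [h1 j hj, mul_one, one_mul] at e1
        obtain ⟨v, hv⟩ := h.unip i (hsub hi) a ha (hne i hi).symm
        have hunit : IsUnit (e i a) := by
          have : IsNilpotent (e i a - 1) := ⟨v, hv⟩
          have := this.isUnit_add_one
          simpa using this
        have e2 : e i j ^ N = 1 := by
          apply hunit.mul_right_cancel
          rw [one_mul]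
          exact e1.symm
        exact unip_pow_eq_one _ (h.unip i (hsub hi) j (hsub hj) hij) N hN e2
      have h3 : ∀ i ∈ S', e i a = 1 := by
        intro i hi
        obtain ⟨j, hj, hji⟩ := hother i
        have e1 := h.rel i (hsub hi) j (hsub hj) a ha (Ne.symm hji) (hne j hj).symm
          (hne i hi).symm
        rw [h2 i hi j hj (Ne.symm hji), mul_one, one_mul] at e1
        have hunit : IsUnit (e j a) := by
          have := (h.unip j (hsub hj) a ha (hne j hj).symm).isUnit_add_one
          simpa using this
        have e2 : e i a ^ N = 1 := by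
          apply hunit.mul_right_cancel
          rw [one_mul]
          exact e1.symm
        exact unip_pow_eq_one _ (h.unip i (hsub hi) a ha (hne i hi).symm) N hN e2
      intro i hi j hj hij
      by_cases hia : i = a
      · subst hia
        exact h1 j (Finset.mem_erase.2 ⟨Ne.symm hij, hj⟩)
      · have hi' : i ∈ S' := Finset.mem_erase.2 ⟨hia, hi⟩
        by_cases hja : j = a
        · subst hja
          exact h3 i hi'
        · exact h2 i hi' j (Finset.mem_erase.2 ⟨hja, hj⟩) hij
    · exfalso
      have hUlt : U < ⊤ := lt_top_iff_ne_top.2 htop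
      have hUpos : 0 < finrank K U := by
        obtain ⟨v, hv, hfix⟩ := common_fixed S' (fun l => e a l)
          (fun l hl => h.unip a ha l (hsub hl) (hne l hl)) hcomm
        rw [finrank_pos_iff]
        exact ⟨⟨⟨v, hfix⟩, 0, fun h0 => hv (congrArg Subtype.val h0)⟩⟩
      -- the quotient
      let e' : ι → ι → End K (V ⧸ U) := fun i j =>
        if hh : U ≤ U.comap (e i j) then U.mapQ U (e i j) hh else 0
      have he' : ∀ i ∈ S, ∀ j ∈ S', i ≠ j → ∀ x, e' i j (U.mkQ x) = U.mkQ (e i j x) := by
        intro i hi j hj hij x
        have hh : U ≤ U.comap (e i j) := fixed_inv h ha hi hj hij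
        change (if hh : U ≤ U.comap (e i j) then U.mapQ U (e i j) hh else 0) (U.mkQ x) = _
        rw [dif_pos hh]
        exact Submodule.mapQ_apply _ _ _ _
      have hst' : Stein N S' e' := (h.mono hsub).quot U e'
        (fun i hi j hj hij => he' i (hsub hi) j hj hij)
      have hntQ : Nontrivial (V ⧸ U) := Submodule.Quotient.nontrivial_iff.2 htop
      obtain ⟨y, hy, hyfix⟩ := common_fixed S' (fun l => e' a l)
        (fun l hl => quot_nilp U (e a l) _ (he' a ha l hl (hne l hl))
          (h.unip a ha l (hsub hl) (hne l hl)))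
        (fun l hl k hk => quot_comm U (e a l) (e a k) _ _ (he' a ha l hl (hne l hl))
          (he' a ha k hk (hne k hk)) (hcomm l hl k hk))
      let W : Submodule K (V ⧸ U) := fixed S' e' a
      -- relations between `e' a l` and `e' i j`
      have hWinv : ∀ i ∈ S', ∀ j ∈ S', i ≠ j → W ≤ W.comap (e' i j) := by
        intro i hi j hj hij w hw l hl
        by_cases hli : l = i
        · subst hli
          have e1 : e' a l (e' l j w) = (e' a j ^ N) (e' l j (e' a l w)) := by
            obtain ⟨x, rfl⟩ := U.mkQ_surjective w
            have hp : ∀ (k : ℕ) z, (e' a j ^ k) (U.mkQ z) = U.mkQ ((e a j ^ k) z) := by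
              intro k
              induction k with
              | zero => intro z; simp
              | succ k ih =>
                intro z
                rw [pow_succ, pow_succ, Module.End.mul_apply, Module.End.mul_apply,
                  he' a ha j hj (hne j hj), ih]
            rw [he' l (hsub hi) j hj hij, he' a ha l hl (hne l hl), he' a ha l hl (hne l hl),
              he' l (hsub hi) j hj hij, hp]
            exact congrArg (fun c : End K V => U.mkQ (c x))
              (h.rel a ha l (hsub hl) j (hsub hj) (hne l hl) hij (hne j hj))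
          rw [e1, hw l hl]
          have hc : Commute (e' a j) (e' l j) :=
            quot_comm U (e a j) (e l j) _ _ (he' a ha j hj (hne j hj)) (he' l (hsub hi) j hj hij)
              (h.comm a ha j (hsub hj) l (hsub hi) j (hsub hj) (hne j hj) hij (Ne.symm hij)
                (hne j hj))
          rw [← Module.End.mul_apply, (hc.pow_left N).eq, Module.End.mul_apply,
            pow_fix _ _ (hw j hj)]
        · have hc : e' a l * e' i j = e' i j * e' a l :=
            quot_comm U (e a l) (e i j) _ _ (he' a ha l hl (hne l hl)) (he' i (hsub hi) j hj hij)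
              (h.comm a ha l (hsub hl) i (hsub hi) j (hsub hj) (hne l hl) hij hli (hne j hj))
          rw [← Module.End.mul_apply, hc, Module.End.mul_apply, hw l hl]
      let e'' : ι → ι → End K W := fun i j =>
        if hh : W ≤ W.comap (e' i j) then (e' i j).restrict (p := W) (q := W) hh else 0
      have he'' : ∀ i ∈ S', ∀ j ∈ S', i ≠ j → ∀ x : W, ((e'' i j x : W) : V ⧸ U) = e' i j x := by
        intro i hi j hj hij x
        change (((if hh : W ≤ W.comap (e' i j) then (e' i j).restrict (p := W) (q := W) hh
          else 0) x : W) : V ⧸ U) = _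
        rw [dif_pos (hWinv i hi j hj hij)]
        rfl
      have hst'' : Stein N S' e'' := hst'.sub W e'' he''
      have hfinW : finrank K W < s := by
        have h1 : finrank K W ≤ finrank K (V ⧸ U) := Submodule.finrank_le W
        have h2 : finrank K (V ⧸ U) + finrank K U = finrank K V :=
          Submodule.finrank_quotient_add_finrank U
        omega
      have htriv := ih S' hS' W e'' hst'' hfinW
      obtain ⟨v, rfl⟩ := U.mkQ_surjective y
      have hvU : v ∉ U := fun hv => hy (by simpa using hv)
      have hphi : ∀ l ∈ S', e a l v - v ∈ U := by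
        intro l hl
        have := hyfix l hl
        rw [he' a ha l hl (hne l hl)] at this
        rw [← Submodule.ker_mkQ U, LinearMap.mem_ker, map_sub, this, sub_self]
      have hfix : ∀ i ∈ S', ∀ j ∈ S', i ≠ j → e i j v - v ∈ U := by
        intro i hi j hj hij
        have h1 := htriv i hi j hj hij
        have h2 := he'' i hi j hj hij ⟨U.mkQ v, hyfix⟩
        rw [h1, he' i (hsub hi) j hj hij] at h2
        rw [← Submodule.ker_mkQ U, LinearMap.mem_ker, map_sub, ← h2]
        simp
      -- the vectors `φ l`
      let φ : ι → V := fun l => e a l v - v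
      have hφ1 : ∀ i ∈ S', ∀ j ∈ S', i ≠ j → e i j (φ i) = φ i - (N : K) • φ j := by
        intro i hi j hj hij
        set u₀ := e i j v - v with hu₀
        have hu0 : u₀ ∈ U := hfix i hi j hj hij
        have hv1 : e i j v = v + u₀ := by rw [hu₀]; abel
        have hv2 : e a i v = v + φ i := by simp only [φ]; abel
        have hv3 : e a j v = v + φ j := by simp only [φ]; abel
        have e1 := congrArg (fun f : End K V => f v)
          (h.rel a ha i (hsub hi) j (hsub hj) (hne i hi) hij (hne j hj))
        simp only [Module.End.mul_apply] at e1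
        have hφjU : φ j ∈ U := hphi j hj
        have hφiU : φ i ∈ U := hphi i hi
        have hinvU : e i j (φ i) ∈ U := fixed_inv h ha (hsub hi) hj hij hφiU
        have hpw : ∀ k : ℕ, (e a j ^ k) v = v + (k : K) • φ j := by
          intro k
          induction k with
          | zero => simp
          | succ k ih =>
            rw [pow_succ', Module.End.mul_apply, ih, map_add, map_smul, hv3, hφjU j hj]
            push_cast
            rw [add_smul, one_smul]
            abel
        rw [hv1, hv2, map_add, map_add, hv1, hv2, hu0 i hi, map_add, map_add, hpw,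
          pow_fix _ _ (hu0 j hj), pow_fix _ _ (hinvU j hj)] at e1
        have e2 : φ i = (N : K) • φ j + e i j (φ i) := by
          calc φ i = (v + φ i + u₀) - v - u₀ := by abel
            _ = (v + (N : K) • φ j + u₀ + e i j (φ i)) - v - u₀ := by rw [e1]
            _ = (N : K) • φ j + e i j (φ i) := by abel
        exact eq_sub_of_add_eq' e2.symm
      have hφ2 : ∀ i ∈ S', ∀ j ∈ S', i ≠ j → ∀ l ∈ S', l ≠ i → e i j (φ l) = φ l := by
        intro i hi j hj hij l hl hli
        set u₀ := e i j v - v with hu₀
        have hu0 : u₀ ∈ U := hfix i hi j hj hij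
        have hv1 : e i j v = v + u₀ := by rw [hu₀]; abel
        have hv2 : e a l v = v + φ l := by simp only [φ]; abel
        have e1 := congrArg (fun f : End K V => f v)
          (h.comm a ha l (hsub hl) i (hsub hi) j (hsub hj) (hne l hl) hij hli (hne j hj))
        simp only [Module.End.mul_apply] at e1
        rw [hv1, hv2, map_add, map_add, hv1, hv2, hu0 l hl] at e1
        calc e i j (φ l) = (v + u₀ + e i j (φ l)) - v - u₀ := by abel
          _ = (v + φ l + u₀) - v - u₀ := by rw [← e1]
          _ = φ l := by abel
      have hNK : (N : K) ≠ 0 := by exact_mod_cast hN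
      have hzero : (∃ i ∈ S', φ i = 0) → False := by
        rintro ⟨i, hi, h0⟩
        have hall : ∀ l ∈ S', φ l = 0 := by
          intro l hl
          by_cases hli : l = i
          · rw [hli]; exact h0
          · have := hφ1 i hi l hl (Ne.symm hli)
            rw [h0, map_zero, zero_sub, eq_comm, neg_eq_zero, smul_eq_zero] at this
            exact this.resolve_left hNK
        exact hvU fun l hl => sub_eq_zero.1 (hall l hl)
      have hli : LinearIndependent K (fun l : S' => (⟨φ l, hphi l l.2⟩ : U)) := by
        rw [Fintype.linearIndependent_iff]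
        intro c hc i
        by_contra hci
        have hc' : ∑ l : S', c l • φ l = 0 := by
          have := congrArg (fun x : U => (x : V)) hc
          simpa using this
        obtain ⟨j, hj, hji⟩ := hother i
        have h1 := congrArg (e i j) hc'
        rw [map_zero, map_sum] at h1
        have h2 : ∑ l : S', e i j (c l • φ l) = ∑ l : S', c l • φ l - (c i * N) • φ j := by
          rw [← Finset.add_sum_erase _ _ (Finset.mem_univ i),
            ← Finset.add_sum_erase (Finset.univ) (fun l : S' => c l • φ l) (Finset.mem_univ i)]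
          have h3 : ∑ l ∈ Finset.univ.erase i, e i j (c l • φ l) =
              ∑ l ∈ Finset.univ.erase i, c l • φ l := by
            refine Finset.sum_congr rfl fun l hl => ?_
            rw [map_smul, hφ2 i i.2 j hj (Ne.symm hji) l l.2
              (fun hh => (Finset.ne_of_mem_erase hl) (Subtype.ext hh))]
          rw [h3, map_smul, hφ1 i i.2 j hj (Ne.symm hji), smul_sub, smul_smul]
          abel
        rw [h2, hc', zero_sub, neg_eq_zero, smul_eq_zero] at h1
        rcases h1 with h1 | h1
        · exact (mul_ne_zero hci hNK) h1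
        · exact hzero ⟨j, hj, h1⟩
      have hcard := hli.fintype_card_le_finrank
      rw [Fintype.card_coe, hS'] at hcard
      have hlt := Submodule.finrank_lt htop
      omega

end Pool.Agent.TH567.PR
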