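import Pool.Agent.TH567.PR.Pos
import Pool.Agent.TH567.PR.Stein

/-! Representations of `SL_ι(ℤ)` of degree less than `|ι|` over any commutative ring have finite
image. -/

namespace Pool.Agent.TH567.PR

open Matrix

universe u

variable {ι : Type*} [Fintype ι] [DecidableEq ι]

lemma tv_commute {a b c d : ι} (hab : a ≠ b) (hcd : c ≠ d) (hbc : b ≠ c) (had : a ≠ d)
    (s t : ℤ) :
    SpecialLinearGroup.transvection hab s * SpecialLinearGroup.transvection hcd t =
      SpecialLinearGroup.transvection hcd t * SpecialLinearGroup.transvection hab s := by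
  apply Subtype.ext
  change (_ + _) * (_ + _) = (_ + _) * (_ + _)
  rw [add_mul, mul_add, mul_add, add_mul, mul_add, mul_add,
    Matrix.single_mul_single_of_ne _ _ _ _ hbc,
    Matrix.single_mul_single_of_ne _ _ _ _ had.symm]
  simp only [one_mul, mul_one]
  abel

/-- in characteristic zero and degree less than `|ι|` some power of the elementary matrices is
killed -/
lemma low_char_zero {K : Type u} [Field K] [CharZero K] (hι : 3 ≤ Fintype.card ι) {m : ℕ}
    (hm : m < Fintype.card ι) (θ : SpecialLinearGroup ι ℤ →* GL (Fin m) K) :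
    ∃ N : ℕ, N ≠ 0 ∧ ∀ (i j : ι) (h : i ≠ j),
      θ (SpecialLinearGroup.transvection h (N : ℤ)) = 1 := by
  classical
  have hθ : ∀ x : ι × ι, ∃ N : ℕ, N ≠ 0 ∧ ∀ h : x.1 ≠ x.2, ∃ k : ℕ,
      ((θ (SpecialLinearGroup.transvection h (1 : ℤ)) : Matrix (Fin m) (Fin m) K) ^ N - 1) ^ k
        = 0 := by
    rintro ⟨i, j⟩
    by_cases h : i = j
    · exact ⟨1, one_ne_zero, fun h' => absurd h h'⟩
    · obtain ⟨k, hik, hkj⟩ := exists_third hι i j
      have e1 := congrArg θ (tv_comm hik hkj h 1 1)
      rw [map_mul, map_mul, map_mul, mul_one] at e1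
      have e2 := congrArg θ (tv_commute hik h hik.symm h 1 1)
      have e3 := congrArg θ (tv_commute hkj h (Ne.symm h) hkj 1 1)
      rw [map_mul, map_mul] at e2 e3
      obtain ⟨N, hN, hu⟩ := gl_unip _ _ _ e1 e2 e3
      exact ⟨N, hN, fun _ => hu⟩
  choose n hn using hθ
  set N : ℕ := ∏ x, n x with hNd
  have hN0 : N ≠ 0 := Finset.prod_ne_zero_iff.2 fun x _ => (hn x).1
  refine ⟨N, hN0, ?_⟩
  let τ : Matrix (Fin m) (Fin m) K ≃ₐ[K] Module.End K (Fin m → K) := Matrix.toLinAlgEquiv'
  let e : ι → ι → Module.End K (Fin m → K) := fun i j =>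
    if h : i ≠ j then
      τ (θ (SpecialLinearGroup.transvection h (N : ℤ)) : Matrix (Fin m) (Fin m) K) else 1
  have he : ∀ (i j : ι) (h : i ≠ j), e i j =
      τ (θ (SpecialLinearGroup.transvection h (N : ℤ)) : Matrix (Fin m) (Fin m) K) :=
    fun i j h => dif_pos h
  have hval : ∀ (a b : SpecialLinearGroup ι ℤ),
      τ (θ (a * b) : Matrix (Fin m) (Fin m) K) = τ (θ a : Matrix (Fin m) (Fin m) K) *
        τ (θ b : Matrix (Fin m) (Fin m) K) := fun a b => by
    rw [map_mul, Units.val_mul, map_mul]
  have hst : Stein N Finset.univ e := by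
    refine ⟨fun i _ j _ hij => ?_, fun i _ j _ k _ hij hjk hik => ?_,
      fun i _ j _ k _ l _ hij hkl hjk hil => ?_⟩
    · rw [he i j hij]
      obtain ⟨k, hk⟩ := (hn (i, j)).2 hij
      obtain ⟨c, hc⟩ : n (i, j) ∣ N := Finset.dvd_prod_of_mem n (Finset.mem_univ _)
      refine ⟨k, ?_⟩
      rw [← map_one τ, ← map_sub, ← map_pow, EmbeddingLike.map_eq_zero_iff]
      have e1 := tv_pow hij 1 N
      rw [mul_one] at e1
      rw [← e1, map_pow, Units.val_pow_eq_pow_val, hc, pow_mul]
      set g := (θ (SpecialLinearGroup.transvection hij (1 : ℤ)) : Matrix (Fin m) (Fin m) K) ^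
        n (i, j)
      obtain ⟨d, hd⟩ : (g - 1) ∣ g ^ c - 1 := sub_one_dvd_pow_sub_one g c
      have hcomm : Commute (g - 1) (g ^ c - 1) := by
        refine Commute.sub_right (Commute.sub_left ?_ (Commute.one_left _)) (Commute.one_right _)
        exact (Commute.refl g).pow_right c
      have hgeom : g ^ c - 1 = (g - 1) * (∑ i ∈ Finset.range c, g ^ i) :=
        (mul_geom_sum g c).symm
      have hcomm2 : Commute (g - 1) (∑ i ∈ Finset.range c, g ^ i) := by
        refine Commute.sub_left ?_ (Commute.one_left _)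
        exact Commute.sum_right _ _ _ fun i _ => (Commute.refl g).pow_right i
      rw [hgeom, hcomm2.mul_pow, hk, zero_mul]
    · rw [he i j hij, he j k hjk, he i k hik, ← hval, tv_comm hij hjk hik, hval, hval]
      congr 1
      rw [← map_pow, ← Units.val_pow_eq_pow_val, ← map_pow, tv_pow]
    · rw [he i j hij, he k l hkl, ← hval, ← hval, tv_commute hij hkl hjk hil]
  have htriv := stein_trivial N hN0 (Fintype.card ι) (by omega) Finset.univ
    (Finset.card_univ) (Fin m → K) e hst (by simpa using hm)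
  intro i j hij
  have h1 := htriv i (Finset.mem_univ _) j (Finset.mem_univ _) hij
  rw [he i j hij, ← map_one τ] at h1
  apply Units.ext
  exact τ.injective h1

/-- **Low degree.** Representations of `SL_ι(ℤ)`, `|ι| ≥ 3`, of degree less than `|ι|` over any
commutative ring have finite image. -/
theorem finite_range_of_low {A : Type u} [CommRing A] (hι : 3 ≤ Fintype.card ι) {m : ℕ}
    (hm : m < Fintype.card ι) (ψ : SpecialLinearGroup ι ℤ →* GL (Fin m) A) :
    Finite ψ.range := by
  classical
  have hfg : Group.FG (SpecialLinearGroup ι ℤ) := fg_SL (by omega)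
  obtain ⟨R, hR, ψ₀, hψ⟩ := fg_rep ψ
  have hnoe : IsNoetherianRing R := Algebra.FiniteType.isNoetherianRing ℤ R
  suffices hs : Finite ψ₀.range from finite_range_of_comp ψ₀ _ ψ hψ
  obtain ⟨N, hN, hkill⟩ := kill_of_minimalPrimes hι ψ₀ (by
    intro P hP
    have hPp : P.IsPrime := hP.1.1
    let K := FractionRing (R ⧸ P)
    let f : R →+* K := (algebraMap (R ⧸ P) K).comp (Ideal.Quotient.mk P)
    have hf : ∀ x, f x = 0 → x ∈ P := fun x hx => by
      have h1 : Ideal.Quotient.mk P x = 0 := by
        apply IsFractionRing.injective (R ⧸ P) K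
        rw [map_zero]
        exact hx
      exact Ideal.Quotient.eq_zero_iff_mem.1 h1
    let θ : SpecialLinearGroup ι ℤ →* GL (Fin m) K := (GeneralLinearGroup.map f).comp ψ₀
    suffices hθ : ∃ N : ℕ, N ≠ 0 ∧ ∀ (i j : ι) (h : i ≠ j),
        θ (SpecialLinearGroup.transvection h (N : ℤ)) = 1 by
      obtain ⟨N, hN, h1⟩ := hθ
      refine ⟨N, hN, fun i j h x y => ?_⟩
      apply hf
      have h2 := congrArg (fun g : GL (Fin m) K => g x y - (1 : Matrix (Fin m) (Fin m) K) x y)
        (h1 i j h)
      simp only [θ, MonoidHom.comp_apply, GeneralLinearGroup.map_apply] at h2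
      rw [Matrix.sub_apply, map_sub, Matrix.one_apply]
      rw [Matrix.one_apply] at h2
      rw [apply_ite f, map_one, map_zero, h2]
      rw [show ((1 : GL (Fin m) K) x y) = (1 : Matrix (Fin m) (Fin m) K) x y from rfl,
        Matrix.one_apply, sub_self]
    obtain ⟨p, hp⟩ := CharP.exists K
    rcases Nat.eq_zero_or_pos p with rfl | hpos
    · have : CharZero K := CharP.charP_to_charZero K
      exact low_char_zero hι hm θ
    · -- positive characteristic: the image is finite
      have hfin : Finite θ.range := finite_range_of_char hι p hpos.ne' (CharP.cast_eq_zero K p) θ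
      refine ⟨Nat.card θ.range, Nat.card_pos.ne', fun i j h => ?_⟩
      have e1 := tv_pow h 1 (Nat.card θ.range)
      rw [mul_one] at e1
      rw [← e1, map_pow]
      have := pow_card_eq_one' (x := (⟨θ (SpecialLinearGroup.transvection h 1), _, rfl⟩ : θ.range))
      exact congrArg Subtype.val this)
  exact finite_range_of_kill hι ψ₀ N hN hkill

end Pool.Agent.TH567.PR
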