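import Pool.Agent.TH567.PR.Rep

/-! Representations of `SL_n(ℤ)` over commutative rings of positive characteristic, and the
transfer to groups with the same finite quotients. -/

namespace Pool.Agent.TH567.PR

open Matrix

universe u

section field

variable {K : Type u} [Field K] {m : ℕ}

/-- over any field a commutator which commutes with both factors is quasi-unipotent -/
lemma gl_unip (a b u : GL (Fin m) K) (h : a * b = u * (b * a)) (hau : a * u = u * a)
    (hbu : b * u = u * b) : ∃ N : ℕ, N ≠ 0 ∧ ∃ k : ℕ,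
      ((u : Matrix (Fin m) (Fin m) K) ^ N - 1) ^ k = 0 := by
  let L := AlgebraicClosure K
  let f : GL (Fin m) K →* (Module.End L (Fin m → L))ˣ :=
    (Units.map (Matrix.toLinAlgEquiv' (R := L) (n := Fin m)).toAlgHom.toRingHom.toMonoidHom).comp
      (GeneralLinearGroup.map (algebraMap K L))
  obtain ⟨N, hN, k, hk⟩ := unip_of_eigen (K := L) (V := Fin m → L)
    ((f u : (Module.End L (Fin m → L))ˣ) : Module.End L (Fin m → L))
    (fun l hl => eigen_torsion (f a) (f b) (f u)
      (by rw [← map_mul, h, map_mul, map_mul]) (by rw [← map_mul, hau, map_mul])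
      (by rw [← map_mul, hbu, map_mul]) l hl)
  refine ⟨N, hN, k, ?_⟩
  have e1 : ((f u : (Module.End L (Fin m → L))ˣ) : Module.End L (Fin m → L)) =
      Matrix.toLinAlgEquiv' ((u : Matrix (Fin m) (Fin m) K).map (algebraMap K L)) := rfl
  rw [e1, ← map_pow, ← map_one (Matrix.toLinAlgEquiv' (R := L) (n := Fin m)), ← map_sub,
    ← map_pow, EmbeddingLike.map_eq_zero_iff] at hk
  have hinj : Function.Injective (RingHom.mapMatrix (m := Fin m) (algebraMap K L)) := by
    intro M M' hM
    ext i j
    apply (algebraMap K L).injective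
    exact congrFun (congrFun hM i) j
  apply hinj
  rw [map_zero, map_pow, map_sub, map_pow, map_one]
  exact hk

lemma gl_torsion (p : ℕ) [hp : Fact p.Prime] [CharP K p] (a b u : GL (Fin m) K)
    (h : a * b = u * (b * a)) (hau : a * u = u * a) (hbu : b * u = u * b) :
    ∃ N : ℕ, N ≠ 0 ∧ u ^ N = 1 := by
  obtain ⟨N, hN, k, hk⟩ := gl_unip a b u h hau hbu
  refine ⟨N * p ^ k, mul_ne_zero hN (pow_ne_zero _ hp.out.ne_zero), ?_⟩
  apply Units.ext
  rw [Units.val_pow_eq_pow_val, pow_mul, Units.val_one, ← sub_eq_zero]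
  rcases isEmpty_or_nonempty (Fin m) with he | hne
  · exact Subsingleton.elim _ _
  have hcp : CharP (Matrix (Fin m) (Fin m) K) p := Matrix.charP p
  have h1 : ((u : Matrix (Fin m) (Fin m) K) ^ N - 1) ^ p ^ k =
      ((u : Matrix (Fin m) (Fin m) K) ^ N) ^ p ^ k - 1 ^ p ^ k :=
    sub_pow_char_pow_of_commute (p := p) (n := k) (Commute.one_right _)
  rw [one_pow] at h1
  rw [← h1]
  exact pow_eq_zero_of_le (Nat.lt_pow_self hp.out.one_lt).le hk

end field

section ring

variable {ι : Type*} [Fintype ι] [DecidableEq ι] {A : Type u} [CommRing A] {m : ℕ}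

/-- Representations of `SL_ι(ℤ)` over a commutative ring of positive characteristic have finite
image. -/
theorem finite_range_of_char (hι : 3 ≤ Fintype.card ι) (c : ℕ) (hc : c ≠ 0) (hcA : (c : A) = 0)
    (ψ : SpecialLinearGroup ι ℤ →* GL (Fin m) A) : Finite ψ.range := by
  classical
  have hfg : Group.FG (SpecialLinearGroup ι ℤ) := fg_SL (by omega)
  obtain ⟨R, hR, ψ₀, hψ⟩ := fg_rep ψ
  have hnoe : IsNoetherianRing R := Algebra.FiniteType.isNoetherianRing ℤ R
  have hcR : (c : R) = 0 := Subtype.ext (by simpa using hcA)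
  suffices hs : Finite ψ₀.range from finite_range_of_comp ψ₀ _ ψ hψ
  obtain ⟨N, hN, hkill⟩ := kill_of_minimalPrimes hι ψ₀ (by
    intro P hP
    have hPp : P.IsPrime := hP.1.1
    let K := FractionRing (R ⧸ P)
    let f : R →+* K := (algebraMap (R ⧸ P) K).comp (Ideal.Quotient.mk P)
    have hf : ∀ x, f x = 0 → x ∈ P := fun x hx => by
      have h1 : Ideal.Quotient.mk P x = 0 := by
        apply IsFractionRing.injective (R ⧸ P) K
        rw [map_zero]
        exact hx
      exact Ideal.Quotient.eq_zero_iff_mem.1 h1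
    obtain ⟨p, hp⟩ := CharP.exists K
    have hcK : (c : K) = 0 := by
      have := congrArg f hcR
      simpa using this
    have hp0 : p ≠ 0 := by
      rintro rfl
      exact hc (by simpa using (CharP.cast_eq_zero_iff K 0 c).1 hcK)
    have hprime : Fact p.Prime := ⟨(CharP.char_is_prime_or_zero K p).resolve_right hp0⟩
    let θ : SpecialLinearGroup ι ℤ →* GL (Fin m) K := (GeneralLinearGroup.map f).comp ψ₀
    have hθ : ∀ x : ι × ι, ∃ N : ℕ, N ≠ 0 ∧ ∀ h : x.1 ≠ x.2,
        θ (SpecialLinearGroup.transvection h (1 : ℤ)) ^ N = 1 := by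
      rintro ⟨i, j⟩
      by_cases h : i = j
      · exact ⟨1, one_ne_zero, fun h' => absurd h h'⟩
      · obtain ⟨k, hik, hkj⟩ := exists_third hι i j
        have e1 := congrArg θ (tv_comm hik hkj h 1 1)
        rw [map_mul, map_mul, map_mul, mul_one] at e1
        have hcom : ∀ {a b c d : ι} (hab : a ≠ b) (hcd : c ≠ d) (_ : b ≠ c) (_ : a ≠ d),
            SpecialLinearGroup.transvection hab (1 : ℤ) * SpecialLinearGroup.transvection hcd 1 =
            SpecialLinearGroup.transvection hcd 1 * SpecialLinearGroup.transvection hab 1 := by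
          intro a b c d hab hcd hbc had
          apply Subtype.ext
          change (_ + _) * (_ + _) = (_ + _) * (_ + _)
          rw [add_mul, mul_add, mul_add, add_mul, mul_add, mul_add,
            Matrix.single_mul_single_of_ne _ _ _ _ hbc,
            Matrix.single_mul_single_of_ne _ _ _ _ had.symm]
          simp only [one_mul, mul_one]
          abel
        have e2 := congrArg θ (hcom hik h hik.symm h)
        have e3 := congrArg θ (hcom hkj h (Ne.symm h) hkj)
        rw [map_mul, map_mul] at e2 e3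
        obtain ⟨N, hN, hu⟩ := gl_torsion p _ _ _ e1 e2 e3
        exact ⟨N, hN, fun _ => hu⟩
    choose n hn using hθ
    refine ⟨∏ x, n x, Finset.prod_ne_zero_iff.2 fun x _ => (hn x).1, fun i j h x y => ?_⟩
    obtain ⟨d, hd⟩ : n (i, j) ∣ ∏ x, n x := Finset.dvd_prod_of_mem n (Finset.mem_univ _)
    have h1 : θ (SpecialLinearGroup.transvection h ((∏ x, n x : ℕ) : ℤ)) = 1 := by
      have := tv_pow h 1 (∏ x, n x)
      rw [mul_one] at this
      rw [← this, map_pow, hd, pow_mul, (hn (i, j)).2 h, one_pow]
    apply hf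
    have h2 := congrArg (fun g : GL (Fin m) K => g x y - (1 : Matrix (Fin m) (Fin m) K) x y) h1
    simp only [θ, MonoidHom.comp_apply, GeneralLinearGroup.map_apply] at h2
    rw [Matrix.sub_apply, map_sub, Matrix.one_apply]
    rw [Matrix.one_apply] at h2
    rw [apply_ite f, map_one, map_zero, h2]
    rw [show ((1 : GL (Fin m) K) x y) = (1 : Matrix (Fin m) (Fin m) K) x y from rfl,
      Matrix.one_apply, sub_self])
  exact finite_range_of_kill hι ψ₀ N hN hkill

end ring

section transfer

variable {S : Type*} [Group S]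

/-- **Transfer.** Let every finite quotient of the finitely generated group `Γ` be a quotient of
`S`. If all representations of `S` of degree `m` over the commutative rings in which every
natural number vanishing in `A` vanishes have finite image, then all representations of `Γ` of
degree `m` over `A` have finite image. -/
theorem transfer {Γ : Type} [Group Γ] [Group.FG Γ]
    (hquot : ∀ (Q : Type) [Group Q] [Finite Q],
      (∃ f : Γ →* Q, Function.Surjective f) → ∃ f : S →* Q, Function.Surjective f)
    {A : Type u} [CommRing A] {m : ℕ}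
    (H : ∀ (B : Type u) [CommRing B], (∀ k : ℕ, (k : A) = 0 → (k : B) = 0) →
      ∀ ψ : S →* GL (Fin m) B, Finite ψ.range)
    (ρ : Γ →* GL (Fin m) A) : Finite ρ.range := by
  classical
  obtain ⟨R, hR, ρ₀, hρ⟩ := fg_rep ρ
  suffices hs : Finite ρ₀.range from finite_range_of_comp ρ₀ _ ρ hρ
  -- the reductions modulo the ideals of finite index
  let J : Type u := {I : Ideal R // Finite (R ⧸ I)}
  let r : (I : J) → Γ →* GL (Fin m) (R ⧸ I.1) := fun I =>
    (GeneralLinearGroup.map (Ideal.Quotient.mk I.1)).comp ρ₀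
  have hψ : ∀ I : J, ∃ ψ : S →* GL (Fin m) (R ⧸ I.1), ψ.range = (r I).range := by
    intro I
    have hfin : Finite (R ⧸ I.1) := I.2
    have hfinGL : Finite (GL (Fin m) (R ⧸ I.1)) := by
      have : Finite (Matrix (Fin m) (Fin m) (R ⧸ I.1)) := by
        unfold Matrix; infer_instance
      infer_instance
    have e : Γ ⧸ (r I).ker ≃* (r I).range := QuotientGroup.quotientKerEquivRange (r I)
    have hfinQ : Finite (Γ ⧸ (r I).ker) := Finite.of_equiv _ e.symm.toEquiv
    obtain ⟨f, hf⟩ := hquot (Γ ⧸ (r I).ker) ⟨QuotientGroup.mk' _, QuotientGroup.mk'_surjective _⟩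
    refine ⟨(r I).range.subtype.comp (e.toMonoidHom.comp f), ?_⟩
    have htop : (e.toMonoidHom.comp f).range = ⊤ :=
      MonoidHom.range_eq_top.2 (e.surjective.comp hf)
    rw [MonoidHom.range_comp, htop, ← MonoidHom.range_eq_map, Subgroup.range_subtype]
  choose ψ hψr using hψ
  -- their product
  let B : Type u := (I : J) → R ⧸ I.1
  let Ψ₀ : S →* Matrix (Fin m) (Fin m) B :=
    { toFun := fun g => Matrix.of fun i j => fun I => ψ I g i j
      map_one' := by
        ext i j I
        change (ψ I 1) i j = (1 : Matrix (Fin m) (Fin m) B) i j I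
        rw [map_one]
        change (1 : Matrix (Fin m) (Fin m) (R ⧸ I.1)) i j = _
        rw [Matrix.one_apply, Matrix.one_apply]
        split_ifs <;> rfl
      map_mul' := fun a b => by
        ext i j I
        change (ψ I (a * b)) i j = _
        rw [map_mul]
        change ((ψ I a).val * (ψ I b).val) i j = _
        rw [Matrix.mul_apply, Matrix.mul_apply, Finset.sum_apply]
        rfl }
  let Ψ : S →* GL (Fin m) B := Ψ₀.toHomUnits
  have hfinΨ : Finite Ψ.range := H B (fun k hk => by
    funext I
    have h1 : (k : R) = 0 := Subtype.ext (by simpa using hk)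
    have h2 := congrArg (Ideal.Quotient.mk I.1) h1
    rw [map_natCast, map_zero] at h2
    change ((k : B) I) = (0 : R ⧸ I.1)
    rw [Pi.natCast_apply]
    exact h2) Ψ
  have hcard : ∀ I : J, Finite (r I).range ∧ Nat.card (r I).range ≤ Nat.card Ψ.range := by
    intro I
    let ev : GL (Fin m) B →* GL (Fin m) (R ⧸ I.1) :=
      GeneralLinearGroup.map (Pi.evalRingHom (fun I : J => R ⧸ I.1) I)
    have hev : ev.comp Ψ = ψ I := by
      ext g i j
      rfl
    have hr : (r I).range = Ψ.range.map ev := by
      rw [← hψr I, ← hev, MonoidHom.range_comp]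
    rw [hr]
    have h1 : Function.Surjective (fun x : Ψ.range => (⟨ev x, x, x.2, rfl⟩ : Ψ.range.map ev)) := by
      rintro ⟨_, x, hx, rfl⟩
      exact ⟨⟨x, hx⟩, rfl⟩
    exact ⟨Finite.of_surjective _ h1, Nat.card_le_card_of_surjective _ h1⟩
  -- conclusion
  by_contra hinf
  have hinf' : (ρ₀.range : Set (GL (Fin m) R)).Infinite := fun h => hinf h
  obtain ⟨F, hF, hFc⟩ := hinf'.exists_subset_card_eq (Nat.card Ψ.range + 1)
  let D : Finset R := ((F ×ˢ F) ×ˢ (Finset.univ : Finset (Fin m × Fin m))).image
    (fun x => x.1.1 x.2.1 x.2.2 - x.1.2 x.2.1 x.2.2) |>.erase 0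
  obtain ⟨I, hI, hDI⟩ := exists_ideal_forall_notMem D (Finset.notMem_erase 0 _)
  let I' : J := ⟨I, hI⟩
  let q : GL (Fin m) R →* GL (Fin m) (R ⧸ I) := GeneralLinearGroup.map (Ideal.Quotient.mk I)
  have hinj : Set.InjOn q F := by
    intro a ha b hb hab
    by_contra hne
    have : ∃ i j, a i j ≠ b i j := by
      by_contra hcon
      push Not at hcon
      exact hne (by ext i j; exact congrArg Subtype.val (hcon i j))
    obtain ⟨i, j, hij⟩ := this
    have h1 : a i j - b i j ∈ D := by
      refine Finset.mem_erase.2 ⟨sub_ne_zero.2 hij, Finset.mem_image.2 ⟨((a, b), (i, j)), ?_, rfl⟩⟩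
      simp only [Finset.mem_product, Finset.mem_univ, and_true]
      exact ⟨ha, hb⟩
    apply hDI _ h1
    rw [← Ideal.Quotient.eq]
    have := congrArg (fun g : GL (Fin m) (R ⧸ I) => g i j) hab
    simpa [q] using this
  obtain ⟨h1, h2⟩ := hcard I'
  have h3 : (F.image q : Set (GL (Fin m) (R ⧸ I))) ⊆ (r I').range := by
    intro x hx
    obtain ⟨a, ha, rfl⟩ := Finset.mem_image.1 (Finset.mem_coe.1 hx)
    obtain ⟨g, rfl⟩ := hF ha
    exact ⟨g, rfl⟩
  have h4 : (F.image q).card = Nat.card Ψ.range + 1 := by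
    rw [Finset.card_image_of_injOn hinj, hFc]
  have h5 := Set.ncard_le_ncard h3 h1
  rw [Set.ncard_coe_finset, h4] at h5
  have h6 : ((r I').range : Set (GL (Fin m) (R ⧸ I))).ncard = Nat.card (r I').range := rfl
  omega

end transfer

end Pool.Agent.TH567.PR
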