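import Mathlib

/-! Finitely generated commutative rings are residually finite. -/

namespace Pool.Agent.TH567.PR

theorem jac_int : IsJacobsonRing ℤ := by
  rw [isJacobsonRing_iff_prime_eq]
  intro P hP
  by_cases h : P = ⊥
  · subst h
    rw [eq_bot_iff]
    intro x hx
    rw [Ideal.mem_jacobson_bot] at hx
    have h1 := hx x
    rw [Int.isUnit_iff] at h1
    rw [Ideal.mem_bot]
    rcases h1 with h1 | h1
    · have : x * x = 0 := by linarith
      exact mul_self_eq_zero.1 this
    · nlinarith [mul_self_nonneg x]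
  · have : P.IsMaximal := hP.isMaximal h
    exact Ideal.jacobson_eq_self_of_isMaximal

/-- a field which is finitely generated as a ring is finite -/
lemma finite_of_module_int (K : Type*) [Field K] [hfin : Module.Finite ℤ K] : Finite K := by
  obtain ⟨p, hp⟩ := CharP.exists K
  rcases Nat.eq_zero_or_pos p with rfl | hpos
  · exfalso
    have : CharZero K := CharP.charP_to_charZero K
    have hint : Algebra.IsIntegral ℤ K := Algebra.IsIntegral.of_finite ℤ K
    have hinj : Function.Injective (algebraMap ℤ K) := by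
      intro a b h
      simpa using h
    have h1 : IsField ℤ := isField_of_isIntegral_of_isField hinj (Field.toIsField K)
    obtain ⟨b, hb⟩ := h1.mul_inv_cancel (show (2 : ℤ) ≠ 0 by norm_num)
    omega
  · have htor : Module.IsTorsion ℤ K := fun x => by
      refine ⟨⟨(p : ℤ), mem_nonZeroDivisors_of_ne_zero (by exact_mod_cast hpos.ne')⟩, ?_⟩
      change (p : ℤ) • x = 0
      rw [zsmul_eq_mul]
      simp
    exact Module.finite_of_fg_torsion K htor

variable {R : Type*} [CommRing R]

/-- finitely generated commutative rings are residually finite -/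
lemma exists_ideal_notMem [Algebra.FiniteType ℤ R] (x : R) (hx : x ≠ 0) :
    ∃ I : Ideal R, Finite (R ⧸ I) ∧ x ∉ I := by
  have : IsNoetherianRing R := Algebra.FiniteType.isNoetherianRing ℤ R
  -- the annihilator of `x`
  let J : Ideal R := Ideal.span {x} |>.annihilator
  have hJ : ∀ r, r ∈ J ↔ r * x = 0 := fun r => by
    change r ∈ (Submodule.span R {x}).annihilator ↔ _
    rw [Submodule.mem_annihilator_span_singleton, smul_eq_mul]
  have hJ1 : J ≠ ⊤ := fun h => by
    have := (hJ 1).1 (h ▸ Submodule.mem_top)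
    rw [one_mul] at this
    exact hx this
  obtain ⟨M, hM, hJM⟩ := Ideal.exists_le_maximal J hJ1
  have hfinM : Finite (R ⧸ M) := by
    have := jac_int
    let i1 : Field (R ⧸ M) := Ideal.Quotient.field M
    have h2 : Module.Finite ℤ (R ⧸ M) :=
      @finite_of_finite_type_of_isJacobsonRing ℤ (R ⧸ M) _ i1 (Ideal.Quotient.algebra ℤ (I := M)) _
        (inferInstance)
    exact finite_of_module_int (R ⧸ M)
  have hnot : ∃ k : ℕ, x ∉ M ^ k := by
    by_contra hcon
    push Not at hcon
    have h1 : x ∈ (⨅ i : ℕ, M ^ i • ⊤ : Submodule R R) := by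
      rw [Submodule.mem_iInf]
      intro i
      rw [Ideal.smul_top_eq_map]
      simpa using hcon i
    rw [Ideal.mem_iInf_smul_pow_eq_bot_iff] at h1
    obtain ⟨r, hr⟩ := h1
    have h2 : (1 - (r : R)) ∈ J := by
      rw [hJ, sub_mul, one_mul, ← smul_eq_mul, hr, sub_self]
    have h3 : (1 : R) ∈ M := by
      have := M.add_mem (hJM h2) r.2
      simpa using this
    exact hM.ne_top ((Ideal.eq_top_iff_one M).2 h3)
  obtain ⟨k, hk⟩ := hnot
  exact ⟨M ^ k, Ideal.finite_quotient_pow (IsNoetherian.noetherian M) k, hk⟩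

lemma finite_quot_inf {I J : Ideal R} [Finite (R ⧸ I)] [Finite (R ⧸ J)] :
    Finite (R ⧸ (I ⊓ J)) := by
  let f : R ⧸ (I ⊓ J) → (R ⧸ I) × (R ⧸ J) := fun x =>
    (Ideal.Quotient.factor inf_le_left x, Ideal.Quotient.factor inf_le_right x)
  refine Finite.of_injective f ?_
  intro x y hxy
  obtain ⟨x, rfl⟩ := Ideal.Quotient.mk_surjective x
  obtain ⟨y, rfl⟩ := Ideal.Quotient.mk_surjective y
  have h1 := congrArg Prod.fst hxy
  have h2 := congrArg Prod.snd hxy
  simp only [f, Ideal.Quotient.factor_mk] at h1 h2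
  rw [Ideal.Quotient.eq] at h1 h2 ⊢
  exact ⟨h1, h2⟩

/-- an ideal of finite index avoiding finitely many nonzero elements -/
lemma exists_ideal_forall_notMem [Algebra.FiniteType ℤ R] (D : Finset R) (hD : (0 : R) ∉ D) :
    ∃ I : Ideal R, Finite (R ⧸ I) ∧ ∀ x ∈ D, x ∉ I := by
  classical
  induction D using Finset.induction_on with
  | empty =>
    refine ⟨⊤, ?_, by simp⟩
    have : Subsingleton (R ⧸ (⊤ : Ideal R)) := Ideal.Quotient.subsingleton_iff.2 rfl
    infer_instance
  | insert a D _ ih =>
    obtain ⟨I, hI, h1⟩ := ih (fun h => hD (Finset.mem_insert_of_mem h))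
    obtain ⟨J, hJ, h2⟩ := exists_ideal_notMem a
      (fun h => hD (h ▸ Finset.mem_insert_self _ _))
    refine ⟨I ⊓ J, finite_quot_inf, fun x hx => ?_⟩
    rcases Finset.mem_insert.1 hx with rfl | hx
    · exact fun h => h2 h.2
    · exact fun h => h1 x hx h.1

end Pool.Agent.TH567.PR
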