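import Pool.Agent.TH567.PR.Kill
import Pool.Agent.TH567.PR.Res
import Pool.Agent.TH567.PR.Field

/-! Representations over commutative rings: reduction to finitely generated rings, and transfer
from `SL_n(ℤ)` to the groups with the same finite quotients. -/

namespace Pool.Agent.TH567.PR

open Matrix

universe u

section fg

variable {G : Type*} [Group G] {A : Type u} [CommRing A] {m : ℕ}

lemma map_injective {R S : Type*} [CommRing R] [CommRing S] (f : R →+* S)
    (hf : Function.Injective f) :
    Function.Injective (GeneralLinearGroup.map (n := Fin m) f) := by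
  intro a b h
  ext i j
  apply hf
  have := congrArg (fun c : GL (Fin m) S => c i j) h
  simpa using this

/-- representations of finitely generated groups are defined over finitely generated rings -/
lemma fg_rep [hG : Group.FG G] (ρ : G →* GL (Fin m) A) :
    ∃ R : Subalgebra ℤ A, Algebra.FiniteType ℤ R ∧ ∃ ρ₀ : G →* GL (Fin m) R,
      ∀ g, GeneralLinearGroup.map (R.val : R →+* A) (ρ₀ g) = ρ g := by
  classical
  obtain ⟨S, hS, hfin⟩ := Group.fg_iff.1 hG
  let F : Set A := ⋃ s ∈ S, (Set.range (fun x : Fin m × Fin m => (ρ s) x.1 x.2) ∪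
    Set.range (fun x : Fin m × Fin m => (ρ s)⁻¹ x.1 x.2))
  have hF : F.Finite := hfin.biUnion fun s _ => (Set.finite_range _).union (Set.finite_range _)
  let R : Subalgebra ℤ A := Algebra.adjoin ℤ F
  have hmem : ∀ s ∈ S, ∀ i j, (ρ s) i j ∈ R ∧ (ρ s)⁻¹ i j ∈ R := by
    intro s hs i j
    constructor
    · refine Algebra.subset_adjoin (Set.mem_biUnion hs (Or.inl ⟨(i, j), rfl⟩))
    · refine Algebra.subset_adjoin (Set.mem_biUnion hs (Or.inr ⟨(i, j), rfl⟩))
  let φ : GL (Fin m) R →* GL (Fin m) A := GeneralLinearGroup.map (R.val : R →+* A)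
  have hφ : Function.Injective φ := map_injective _ Subtype.val_injective
  have hgen : ∀ s ∈ S, ρ s ∈ φ.range := by
    intro s hs
    let M : Matrix (Fin m) (Fin m) R := Matrix.of fun i j => ⟨(ρ s) i j, (hmem s hs i j).1⟩
    let M' : Matrix (Fin m) (Fin m) R := Matrix.of fun i j => ⟨(ρ s)⁻¹ i j, (hmem s hs i j).2⟩
    have hmap : ∀ N N' : Matrix (Fin m) (Fin m) R,
        N.map (R.val : R →+* A) = N'.map (R.val : R →+* A) → N = N' := fun N N' h => by
      ext i j
      exact congrFun (congrFun h i) j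
    have e1 : M.map (R.val : R →+* A) = ((ρ s : GL (Fin m) A) : Matrix (Fin m) (Fin m) A) := rfl
    have e2 : M'.map (R.val : R →+* A) =
      (((ρ s)⁻¹ : GL (Fin m) A) : Matrix (Fin m) (Fin m) A) := rfl
    have h1 : M * M' = 1 := by
      apply hmap
      rw [Matrix.map_mul, e1, e2, Matrix.map_one _ (map_zero _) (map_one _)]
      exact Units.mul_inv _
    have h2 : M' * M = 1 := by
      apply hmap
      rw [Matrix.map_mul, e1, e2, Matrix.map_one _ (map_zero _) (map_one _)]
      exact Units.inv_mul _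
    refine ⟨⟨M, M', h1, h2⟩, ?_⟩
    apply Units.ext
    exact e1
  have hall : ∀ g, ρ g ∈ φ.range := by
    intro g
    have hg : g ∈ Subgroup.closure S := hS ▸ Subgroup.mem_top g
    induction hg using Subgroup.closure_induction with
    | mem x hx => exact hgen x hx
    | one => rw [map_one]; exact one_mem _
    | mul x y _ _ hx hy => rw [map_mul]; exact mul_mem hx hy
    | inv x _ hx => rw [map_inv]; exact inv_mem hx
  refine ⟨R, (Subalgebra.fg_iff_finiteType R).1 ⟨hF.toFinset, by rw [Set.Finite.coe_toFinset]⟩,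
    (MonoidHom.ofInjective hφ).symm.toMonoidHom.comp (ρ.codRestrict φ.range hall), fun g => ?_⟩
  have : (MonoidHom.ofInjective hφ) ((MonoidHom.ofInjective hφ).symm
      (ρ.codRestrict φ.range hall g)) = ρ.codRestrict φ.range hall g :=
    MulEquiv.apply_symm_apply _ _
  exact congrArg Subtype.val this

lemma finite_range_of_comp {H K : Type*} [Group H] [Group K] (ρ₀ : G →* H) (φ : H →* K)
    (ρ : G →* K) (h : ∀ g, φ (ρ₀ g) = ρ g) [hfin : Finite ρ₀.range] : Finite ρ.range := by
  have : ρ = φ.comp ρ₀ := MonoidHom.ext fun g => (h g).symm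
  rw [this, MonoidHom.range_comp]
  have h1 : (ρ₀.range : Set H).Finite := hfin
  exact h1.image φ

end fg

/-! ### Congruence subgroups of an ideal -/

section cong

variable {A : Type u} [CommRing A] {m : ℕ}

/-- all entries lie in the ideal -/
def MemI (I : Ideal A) (M : Matrix (Fin m) (Fin m) A) : Prop := ∀ i j, M i j ∈ I

lemma MemI.mul {I J : Ideal A} {M N : Matrix (Fin m) (Fin m) A} (h1 : MemI I M) (h2 : MemI J N) :
    MemI (I * J) (M * N) := fun i j => by
  rw [Matrix.mul_apply]
  exact Ideal.sum_mem _ fun k _ => Ideal.mul_mem_mul (h1 i k) (h2 k j)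

lemma MemI.mul_right {I : Ideal A} {M : Matrix (Fin m) (Fin m) A} (h1 : MemI I M)
    (N : Matrix (Fin m) (Fin m) A) : MemI I (M * N) := fun i j => by
  rw [Matrix.mul_apply]
  exact Ideal.sum_mem _ fun k _ => I.mul_mem_right _ (h1 i k)

lemma MemI.sub {I : Ideal A} {M N : Matrix (Fin m) (Fin m) A} (h1 : MemI I M) (h2 : MemI I N) :
    MemI I (M - N) := fun i j => I.sub_mem (h1 i j) (h2 i j)

lemma memI_commutator {I J : Ideal A} {g h u : GL (Fin m) A}
    (hg : MemI I ((g : Matrix (Fin m) (Fin m) A) - 1))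
    (hh : MemI J ((h : Matrix (Fin m) (Fin m) A) - 1)) (hu : g * h = u * (h * g)) :
    MemI (I * J) ((u : Matrix (Fin m) (Fin m) A) - 1) := by
  have e : (u : Matrix (Fin m) (Fin m) A) - 1 =
      (((g : Matrix (Fin m) (Fin m) A) - 1) * ((h : Matrix (Fin m) (Fin m) A) - 1) -
        ((h : Matrix (Fin m) (Fin m) A) - 1) * ((g : Matrix (Fin m) (Fin m) A) - 1)) *
        (((h * g)⁻¹ : GL (Fin m) A) : Matrix (Fin m) (Fin m) A) := by
    have e1 : ((g : Matrix (Fin m) (Fin m) A) - 1) * ((h : Matrix (Fin m) (Fin m) A) - 1) -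
        ((h : Matrix (Fin m) (Fin m) A) - 1) * ((g : Matrix (Fin m) (Fin m) A) - 1) =
        ((g * h : GL (Fin m) A) : Matrix (Fin m) (Fin m) A) -
          ((h * g : GL (Fin m) A) : Matrix (Fin m) (Fin m) A) := by
      rw [Units.val_mul, Units.val_mul]
      noncomm_ring
    rw [e1, hu, Units.val_mul u, sub_mul, mul_assoc, Units.mul_inv, mul_one]
  rw [e]
  refine MemI.mul_right (MemI.sub (hg.mul hh) ?_) _
  have := hh.mul hg
  rwa [mul_comm J I] at this

end cong

section SL

variable {ι : Type*} [Fintype ι] [DecidableEq ι]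

lemma tv_pow {i j : ι} (h : i ≠ j) (t : ℤ) (k : ℕ) :
    SpecialLinearGroup.transvection h t ^ k = SpecialLinearGroup.transvection h (k * t) := by
  induction k with
  | zero => simp
  | succ k ih =>
    rw [pow_succ, ih, ← SpecialLinearGroup.transvection_add]
    congr 1
    push_cast
    ring

lemma fg_SL (hι : 2 ≤ Fintype.card ι) : Group.FG (SpecialLinearGroup ι ℤ) := by
  rw [Group.fg_iff]
  obtain ⟨p, q, hpq⟩ := Fintype.one_lt_card_iff.1 (show 1 < Fintype.card ι from hι)
  refine ⟨{g | ∃ (i j : ι) (h : i ≠ j), g = SpecialLinearGroup.transvection h 1}, ?_, ?_⟩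
  · rw [eq_top_iff, ← closure_T p q hpq, Subgroup.closure_le]
    rintro _ ⟨i, j, h, t, rfl⟩
    have h1 : SpecialLinearGroup.transvection h (1 : ℤ) ∈ Subgroup.closure
        {g : SpecialLinearGroup ι ℤ | ∃ (i j : ι) (h : i ≠ j),
          g = SpecialLinearGroup.transvection h 1} := Subgroup.subset_closure ⟨i, j, h, rfl⟩
    rcases Int.eq_nat_or_neg t with ⟨k, rfl | rfl⟩
    · have := pow_mem h1 k
      rw [tv_pow, mul_one] at this
      exact this
    · have := inv_mem (pow_mem h1 k)
      rw [tv_pow, mul_one, SpecialLinearGroup.transvection_inv] at this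
      exact this
  · have : {g : SpecialLinearGroup ι ℤ | ∃ (i j : ι) (h : i ≠ j),
        g = SpecialLinearGroup.transvection h 1} ⊆ Set.range (fun x : ι × ι =>
          if h : x.1 ≠ x.2 then SpecialLinearGroup.transvection h (1 : ℤ) else 1) := by
      rintro _ ⟨i, j, h, rfl⟩
      exact ⟨(i, j), by simp [h]⟩
    exact (Set.finite_range _).subset this

lemma exists_third (hι : 3 ≤ Fintype.card ι) (i j : ι) : ∃ k, i ≠ k ∧ k ≠ j := by
  by_contra hcon
  push Not at hcon
  have h1 : Fintype.card ι ≤ ({i, j} : Finset ι).card := by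
    rw [← Finset.card_univ]
    refine Finset.card_le_card fun k _ => ?_
    by_cases hk : i = k
    · simp [hk]
    · simp [hcon k hk]
  have h2 := Finset.card_le_two (a := i) (b := j)
  omega

variable {A : Type u} [CommRing A] {m : ℕ}

/-- Noetherian descent: it suffices to kill a power of the elementary matrices modulo each
minimal prime. -/
theorem kill_of_minimalPrimes [IsNoetherianRing A] (hι : 3 ≤ Fintype.card ι)
    (ψ : SpecialLinearGroup ι ℤ →* GL (Fin m) A)
    (H : ∀ P ∈ minimalPrimes A, ∃ N : ℕ, N ≠ 0 ∧ ∀ (i j : ι) (h : i ≠ j),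
      MemI P ((ψ (SpecialLinearGroup.transvection h (N : ℤ)) : Matrix (Fin m) (Fin m) A) - 1)) :
    ∃ N : ℕ, N ≠ 0 ∧ ∀ (i j : ι) (h : i ≠ j),
      ψ (SpecialLinearGroup.transvection h (N : ℤ)) = 1 := by
  classical
  choose! n hn using H
  have hfin : (minimalPrimes A).Finite := minimalPrimes.finite_of_isNoetherianRing A
  set N : ℕ := ∏ P ∈ hfin.toFinset, n P with hNd
  have hN0 : N ≠ 0 := Finset.prod_ne_zero_iff.2 fun P hP => (hn P (hfin.mem_toFinset.1 hP)).1
  have hpow : ∀ (I : Ideal A) (g : GL (Fin m) A) (k : ℕ),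
      MemI I ((g : Matrix (Fin m) (Fin m) A) - 1) →
      MemI I (((g ^ k : GL (Fin m) A) : Matrix (Fin m) (Fin m) A) - 1) := by
    intro I g k hg
    rw [Units.val_pow_eq_pow_val]
    obtain ⟨c, hc⟩ := sub_one_dvd_pow_sub_one (g : Matrix (Fin m) (Fin m) A) k
    rw [hc]
    exact hg.mul_right _
  -- modulo the nilradical
  have h1 : ∀ (i j : ι) (h : i ≠ j), MemI (nilradical A)
      ((ψ (SpecialLinearGroup.transvection h (N : ℤ)) : Matrix (Fin m) (Fin m) A) - 1) := by
    intro i j h x y
    have e : nilradical A = sInf (minimalPrimes A) := by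
      rw [minimalPrimes, Ideal.sInf_minimalPrimes]
      rfl
    rw [e, Submodule.mem_sInf]
    intro P hP
    obtain ⟨c, hc⟩ : n P ∣ N := Finset.dvd_prod_of_mem n (hfin.mem_toFinset.2 hP)
    have h2 := hpow P _ c ((hn P hP).2 i j h)
    rw [← map_pow, tv_pow] at h2
    have e2 : ((c : ℕ) : ℤ) * ((n P : ℕ) : ℤ) = (N : ℤ) := by
      rw [hc]; push_cast; ring
    rw [e2] at h2
    exact h2 x y
  have h2 : ∀ r : ℕ, ∀ (i j : ι) (h : i ≠ j), MemI (nilradical A ^ (r + 1))
      ((ψ (SpecialLinearGroup.transvection h ((N ^ (r + 1) : ℕ) : ℤ)) :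
        Matrix (Fin m) (Fin m) A) - 1) := by
    intro r
    induction r with
    | zero => simpa using h1
    | succ r ih =>
      intro i j h
      obtain ⟨k, hik, hkj⟩ := exists_third hι i j
      have e := congrArg ψ (tv_comm hik hkj h ((N ^ (r + 1) : ℕ) : ℤ) (N : ℤ))
      rw [map_mul, map_mul, map_mul] at e
      have := memI_commutator (ih i k hik) (h1 k j hkj) e
      rw [← pow_succ] at this
      have e3 : ((N ^ (r + 1) : ℕ) : ℤ) * (N : ℤ) = ((N ^ (r + 1 + 1) : ℕ) : ℤ) := by
        push_cast; ring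
      rw [e3] at this
      exact this
  obtain ⟨s, hs⟩ : IsNilpotent (nilradical A) := IsNoetherianRing.isNilpotent_nilradical A
  refine ⟨N ^ (s + 1), pow_ne_zero _ hN0, fun i j h => ?_⟩
  have h3 := h2 s i j h
  rw [pow_succ, hs, zero_mul] at h3
  apply Units.ext
  rw [← sub_eq_zero]
  ext x y
  have := h3 x y
  simpa using this

end SL

end Pool.Agent.TH567.PR
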