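import Pool.Agent.TH567.PR.Pos

/-! If all representations of `Γ` over rings of positive characteristic have finite image then
the traces of all representations of `Γ` over fields are algebraic over the prime field. -/

namespace Pool.Agent.TH567.PR

open Matrix Polynomial TensorProduct

universe u

/-- the trace of a matrix of finite order is integral -/
lemma trace_integral {κ : Type u} [Field κ] {m : ℕ} (M : Matrix (Fin m) (Fin m) κ) (N : ℕ)
    (hN : N ≠ 0) (h : M ^ N = 1) : IsIntegral ℤ M.trace := by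
  let L := AlgebraicClosure κ
  let M' : Matrix (Fin m) (Fin m) L := M.map (algebraMap κ L)
  have hM' : M' ^ N = 1 := by
    have : M' = (algebraMap κ L).mapMatrix M := rfl
    rw [this, ← map_pow, h, map_one]
  have htr : M'.trace = algebraMap κ L M.trace := by
    rw [Matrix.trace, Matrix.trace, map_sum]
    rfl
  have hroot : ∀ l ∈ M'.charpoly.roots, l ^ N = 1 := by
    intro l hl
    have h1 : Module.End.HasEigenvalue (Matrix.toLin' M') l := by
      rw [Module.End.hasEigenvalue_iff_isRoot_charpoly, Matrix.charpoly_toLin']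
      exact (Polynomial.mem_roots'.1 hl).2
    obtain ⟨v, hv⟩ := h1.exists_hasEigenvector
    have h2 : ∀ k : ℕ, ((Matrix.toLin' M') ^ k) v = l ^ k • v := by
      intro k
      induction k with
      | zero => simp
      | succ k ih => rw [pow_succ', Module.End.mul_apply, ih, map_smul, hv.apply_eq_smul,
          smul_smul, pow_succ]
    have h3 := h2 N
    rw [← Matrix.toLin'_pow, hM', Matrix.toLin'_one, LinearMap.id_apply] at h3
    have h4 : (l ^ N - 1) • v = 0 := by rw [sub_smul, one_smul, ← h3, sub_self]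
    rcases smul_eq_zero.1 h4 with h5 | h5
    · exact sub_eq_zero.1 h5
    · exact absurd h5 hv.2
  have hint : IsIntegral ℤ M'.trace := by
    rw [Matrix.trace_eq_sum_roots_charpoly]
    refine IsIntegral.multiset_sum fun l hl => ?_
    have hmon : ((Polynomial.X : ℤ[X]) ^ N - 1).Monic := by
      simpa using monic_X_pow_sub_C (1 : ℤ) hN
    refine ⟨(Polynomial.X : ℤ[X]) ^ N - 1, hmon, ?_⟩
    simp [hroot l hl]
  rw [htr] at hint
  exact (isIntegral_algHom_iff ((Algebra.ofId κ L).restrictScalars ℤ)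
    (algebraMap κ L).injective).1 hint

/-- lifting representations along an injective homomorphism -/
lemma lift_rep {G : Type*} [Group G] {B L : Type*} [CommRing B] [CommRing L] {m : ℕ}
    (j : B →+* L) (hj : Function.Injective j) (ρ : G →* GL (Fin m) L) (S : Set G)
    (hS : Subgroup.closure S = ⊤)
    (h : ∀ s ∈ S, ∀ i k, (∃ b, j b = (ρ s) i k) ∧ (∃ b, j b = (ρ s)⁻¹ i k)) :
    ∃ ρ₀ : G →* GL (Fin m) B, ∀ g, GeneralLinearGroup.map j (ρ₀ g) = ρ g := by
  classical
  let φ : GL (Fin m) B →* GL (Fin m) L := GeneralLinearGroup.map j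
  have hφ : Function.Injective φ := map_injective _ hj
  have hgen : ∀ s ∈ S, ρ s ∈ φ.range := by
    intro s hs
    choose a ha using fun i k => (h s hs i k).1
    choose b hb using fun i k => (h s hs i k).2
    let M : Matrix (Fin m) (Fin m) B := Matrix.of a
    let M' : Matrix (Fin m) (Fin m) B := Matrix.of b
    have hmap : ∀ N N' : Matrix (Fin m) (Fin m) B, N.map j = N'.map j → N = N' :=
        fun N N' h => by
      ext i k
      exact hj (congrFun (congrFun h i) k)
    have e1 : M.map j = ((ρ s : GL (Fin m) L) : Matrix (Fin m) (Fin m) L) := by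
      ext i k
      exact ha i k
    have e2 : M'.map j = (((ρ s)⁻¹ : GL (Fin m) L) : Matrix (Fin m) (Fin m) L) := by
      ext i k
      exact hb i k
    have h1 : M * M' = 1 := by
      apply hmap
      rw [Matrix.map_mul, e1, e2, Matrix.map_one _ (map_zero _) (map_one _)]
      exact Units.mul_inv _
    have h2 : M' * M = 1 := by
      apply hmap
      rw [Matrix.map_mul, e1, e2, Matrix.map_one _ (map_zero _) (map_one _)]
      exact Units.inv_mul _
    refine ⟨⟨M, M', h1, h2⟩, ?_⟩
    apply Units.ext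
    exact e1
  have hall : ∀ g, ρ g ∈ φ.range := by
    intro g
    have hg : g ∈ Subgroup.closure S := hS ▸ Subgroup.mem_top g
    induction hg using Subgroup.closure_induction with
    | mem x hx => exact hgen x hx
    | one => rw [map_one]; exact one_mem _
    | mul x y _ _ hx hy => rw [map_mul]; exact mul_mem hx hy
    | inv x _ hx => rw [map_inv]; exact inv_mem hx
  refine ⟨(MonoidHom.ofInjective hφ).symm.toMonoidHom.comp (ρ.codRestrict φ.range hall),
    fun g => ?_⟩
  have : (MonoidHom.ofInjective hφ) ((MonoidHom.ofInjective hφ).symm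
      (ρ.codRestrict φ.range hall g)) = ρ.codRestrict φ.range hall g :=
    MulEquiv.apply_symm_apply _ _
  exact congrArg Subtype.val this

/-- the denominators `p` -/
lemma exists_prime_not_dvd (f : ℤ[X]) (hf : f ≠ 0) :
    ∃ p : ℕ, p.Prime ∧ ¬ (C (p : ℤ)) ∣ f := by
  obtain ⟨n, hn⟩ : ∃ n, f.coeff n ≠ 0 := by
    by_contra hcon
    push Not at hcon
    exact hf (Polynomial.ext (by simpa using hcon))
  obtain ⟨p, hp, hprime⟩ := Nat.exists_infinite_primes ((f.coeff n).natAbs + 1)
  refine ⟨p, hprime, fun hdvd => ?_⟩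
  have h1 : (p : ℤ) ∣ f.coeff n := (Polynomial.C_dvd_iff_dvd_coeff _ _).1 hdvd n
  have h2 := Int.natAbs_dvd_natAbs.2 h1
  rw [Int.natAbs_natCast] at h2
  have h3 := Nat.le_of_dvd (Int.natAbs_pos.2 hn) h2
  omega

/-- reduction modulo a prime of an integral extension -/
lemma step3 {Γ : Type} [Group Γ] {m : ℕ} {O L : Type u} [CommRing O] [IsDomain O] [Field L]
    [Algebra ℤ[X] O] [Algebra O L] (hgO : Function.Injective (algebraMap O L))
    (hpos : ∀ (A : Type u) [CommRing A] (c : ℕ), c ≠ 0 → (c : A) = 0 →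
      ∀ ρ : Γ →* GL (Fin m) A, Finite ρ.range)
    (ρL : Γ →* GL (Fin m) L) (S : Set Γ) (hS : Subgroup.closure S = ⊤)
    (Q : Ideal O) [hQ : Q.IsPrime] (p : ℕ) (hp : p.Prime)
    (hQ𝔭 : Ideal.comap (algebraMap ℤ[X] O) Q = Ideal.span {C (p : ℤ)})
    (hl : ∀ s ∈ S, ∀ i k,
      (∃ a b : O, b ∉ Q ∧ algebraMap O L a = algebraMap O L b * (ρL s) i k) ∧
      (∃ a b : O, b ∉ Q ∧ algebraMap O L a = algebraMap O L b * (ρL s)⁻¹ i k))
    (γ : Γ) (htr : (ρL γ : Matrix (Fin m) (Fin m) L).trace =
      algebraMap O L (algebraMap ℤ[X] O Polynomial.X)) : False := by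
  classical
  have hpZ : Prime (p : ℤ) := Nat.prime_iff_prime_int.1 hp
  let Loc := Localization.AtPrime Q
  have hunit : ∀ y : Q.primeCompl, IsUnit (algebraMap O L y) := fun y => by
    rw [isUnit_iff_ne_zero]
    intro h0
    have : (y : O) = 0 := hgO (by rw [h0, map_zero])
    exact y.2 (this ▸ Q.zero_mem)
  let j2 : Loc →+* L := IsLocalization.lift (M := Q.primeCompl) (g := algebraMap O L) hunit
  have hj2 : Function.Injective j2 := by
    refine (IsLocalization.lift_injective_iff (M := Q.primeCompl) (S := Loc)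
      (g := algebraMap O L) hunit).2 ?_
    intro x y
    constructor
    · intro h
      rw [IsLocalization.injective Loc Q.primeCompl_le_nonZeroDivisors h]
    · intro h
      rw [hgO h]
  have hj2O : ∀ a : O, j2 (algebraMap O Loc a) = algebraMap O L a := fun a =>
    IsLocalization.lift_eq _ a
  have hlift : ∀ w : L, (∃ a b : O, b ∉ Q ∧ algebraMap O L a = algebraMap O L b * w) →
      ∃ c, j2 c = w := by
    rintro w ⟨a, b, hb, hab⟩
    refine ⟨IsLocalization.mk' Loc a (⟨b, hb⟩ : Q.primeCompl), ?_⟩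
    exact (IsLocalization.lift_mk'_spec _ _ _ _).2 hab
  obtain ⟨ρ1, hρ1⟩ := lift_rep j2 hj2 ρL S hS (fun s hs i k =>
    ⟨hlift _ (hl s hs i k).1, hlift _ (hl s hs i k).2⟩)
  let κ := IsLocalRing.ResidueField Loc
  let res : Loc →+* κ := IsLocalRing.residue Loc
  let θ : ℤ[X] →+* κ := (res.comp (algebraMap O Loc)).comp (algebraMap ℤ[X] O)
  have hθ : ∀ q : ℤ[X], θ q = 0 → q ∈ Ideal.span {C (p : ℤ)} := by
    intro q hq
    have h1 : algebraMap O Loc (algebraMap ℤ[X] O q) ∈ IsLocalRing.maximalIdeal Loc :=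
      (IsLocalRing.residue_eq_zero_iff _).1 hq
    rw [IsLocalization.AtPrime.to_map_mem_maximal_iff Loc Q] at h1
    rw [← hQ𝔭]
    exact h1
  have hθ' : ∀ q : ℤ[X], q ∈ Ideal.span {C (p : ℤ)} → θ q = 0 := by
    intro q hq
    refine (IsLocalRing.residue_eq_zero_iff _).2 ?_
    rw [IsLocalization.AtPrime.to_map_mem_maximal_iff Loc Q]
    rw [← hQ𝔭] at hq
    exact hq
  have hpκ : (p : κ) = 0 := by
    have h1 := hθ' (C (p : ℤ)) (Ideal.mem_span_singleton_self _)
    have h2 : θ (C (p : ℤ)) = (p : κ) := by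
      have : (C (p : ℤ) : ℤ[X]) = ((p : ℕ) : ℤ[X]) := by simp
      rw [this, map_natCast]
    rw [← h2, h1]
  let ρκ : Γ →* GL (Fin m) κ := (GeneralLinearGroup.map res).comp ρ1
  have hfinκ : Finite ρκ.range := hpos κ p hp.ne_zero hpκ ρκ
  have hord : (ρκ γ) ^ Nat.card ρκ.range = 1 := by
    have := pow_card_eq_one' (x := (⟨ρκ γ, _, rfl⟩ : ρκ.range))
    exact congrArg Subtype.val this
  have hord' : ((ρκ γ : Matrix (Fin m) (Fin m) κ)) ^ Nat.card ρκ.range = 1 := by
    rw [← Units.val_pow_eq_pow_val, hord, Units.val_one]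
  obtain ⟨h, hmon, hev⟩ := trace_integral _ _ Nat.card_pos.ne' hord'
  -- the trace
  have htr2 : (ρκ γ : Matrix (Fin m) (Fin m) κ).trace = θ Polynomial.X := by
    have h1 : (ρκ γ : Matrix (Fin m) (Fin m) κ).trace =
        res ((ρ1 γ : Matrix (Fin m) (Fin m) Loc).trace) := by
      rw [Matrix.trace, Matrix.trace, map_sum]
      rfl
    have h2 : j2 ((ρ1 γ : Matrix (Fin m) (Fin m) Loc).trace) =
        (ρL γ : Matrix (Fin m) (Fin m) L).trace := by
      rw [Matrix.trace, Matrix.trace, map_sum]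
      refine Finset.sum_congr rfl fun i _ => ?_
      have := congrArg (fun g : GL (Fin m) L => g i i) (hρ1 γ)
      simpa using this
    have h3 : (ρ1 γ : Matrix (Fin m) (Fin m) Loc).trace =
        algebraMap O Loc (algebraMap ℤ[X] O Polynomial.X) := by
      apply hj2
      rw [h2, htr, hj2O]
    rw [h1, h3]
    rfl
  rw [htr2] at hev
  have h4 : θ h = 0 := by
    rw [← hev]
    have h5 : θ h = Polynomial.eval₂ (θ.comp C) (θ Polynomial.X) h := by
      conv_lhs => rw [← Polynomial.eval₂_C_X (p := h)]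
      rw [Polynomial.hom_eval₂]
    rw [h5]
    congr 1
    exact RingHom.ext_int _ _
  have h6 := hθ h h4
  rw [Ideal.mem_span_singleton, Polynomial.C_dvd_iff_dvd_coeff] at h6
  have h7 := h6 h.natDegree
  rw [hmon.coeff_natDegree] at h7
  exact hpZ.not_dvd_one h7

/-- no representation over an algebraic extension of `ℚ(X)` has trace `X` -/
lemma step2 {Γ : Type} [Group Γ] [hΓ : Group.FG Γ] {m : ℕ} {L : Type u} [Field L]
    [Algebra ℤ[X] L] (hinjL : Function.Injective (algebraMap ℤ[X] L))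
    [halg : Algebra.IsAlgebraic ℤ[X] L]
    (hpos : ∀ (A : Type u) [CommRing A] (c : ℕ), c ≠ 0 → (c : A) = 0 →
      ∀ ρ : Γ →* GL (Fin m) A, Finite ρ.range)
    (ρL : Γ →* GL (Fin m) L) (γ : Γ) (htr : (ρL γ : Matrix (Fin m) (Fin m) L).trace =
      algebraMap ℤ[X] L Polynomial.X) : False := by
  classical
  obtain ⟨S, hS, hSfin⟩ := Group.fg_iff.1 hΓ
  let Wset : Set L := ⋃ s ∈ S, (Set.range (fun x : Fin m × Fin m => (ρL s) x.1 x.2) ∪
    Set.range (fun x : Fin m × Fin m => (ρL s)⁻¹ x.1 x.2))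
  have hW : Wset.Finite :=
    hSfin.biUnion fun s _ => (Set.finite_range _).union (Set.finite_range _)
  obtain ⟨f, hf0, hf⟩ := Algebra.IsAlgebraic.exists_integral_multiples ℤ[X] hW.toFinset
  obtain ⟨p, hp, hpf⟩ := exists_prime_not_dvd f hf0
  have hpZ : Prime (p : ℤ) := Nat.prime_iff_prime_int.1 hp
  have hCp : Prime (C (p : ℤ)) := Polynomial.prime_C_iff.2 hpZ
  have h𝔭 : (Ideal.span {C (p : ℤ)}).IsPrime :=
    (Ideal.span_singleton_prime hCp.ne_zero).2 hCp
  have hinjO : Function.Injective (algebraMap ℤ[X] (integralClosure ℤ[X] L)) := by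
    intro a b hab
    apply hinjL
    have := congrArg (algebraMap (integralClosure ℤ[X] L) L) hab
    rwa [← IsScalarTower.algebraMap_apply, ← IsScalarTower.algebraMap_apply] at this
  obtain ⟨Q, -, hQ, hQ𝔭⟩ := Ideal.exists_ideal_over_prime_of_isIntegral
    (S := integralClosure ℤ[X] L) (Ideal.span {C (p : ℤ)}) ⊥ (by
    rw [← RingHom.ker_eq_comap_bot, (RingHom.injective_iff_ker_eq_bot _).1 hinjO]
    exact bot_le)
  have hfQ : algebraMap ℤ[X] (integralClosure ℤ[X] L) f ∉ Q := fun h => by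
    have : f ∈ Q.comap (algebraMap ℤ[X] (integralClosure ℤ[X] L)) := h
    rw [hQ𝔭, Ideal.mem_span_singleton] at this
    exact hpf this
  have hlift : ∀ w ∈ Wset, ∃ a b : integralClosure ℤ[X] L, b ∉ Q ∧
      algebraMap (integralClosure ℤ[X] L) L a = algebraMap (integralClosure ℤ[X] L) L b * w := by
    intro w hw
    have hint : IsIntegral ℤ[X] (f • w) := hf w (hW.mem_toFinset.2 hw)
    refine ⟨⟨f • w, hint⟩, algebraMap ℤ[X] (integralClosure ℤ[X] L) f, hfQ, ?_⟩
    change f • w = algebraMap (integralClosure ℤ[X] L) L (algebraMap ℤ[X] _ f) * w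
    rw [← IsScalarTower.algebraMap_apply, Algebra.smul_def]
  refine step3 (O := integralClosure ℤ[X] L) Subtype.val_injective hpos ρL S hS Q p hp hQ𝔭
    (fun s hs i k => ⟨hlift _ (Set.mem_biUnion hs (Or.inl ⟨(i, k), rfl⟩)),
      hlift _ (Set.mem_biUnion hs (Or.inr ⟨(i, k), rfl⟩))⟩) γ ?_
  rw [htr, ← IsScalarTower.algebraMap_apply]

/-- **Algebraicity.** The trace of `ρ γ` over a finitely generated domain of characteristic zero
is algebraic. -/
theorem trace_algebraic {Γ : Type} [Group Γ] [hΓ : Group.FG Γ] {D : Type u} [CommRing D]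
    [IsDomain D] [CharZero D] [Algebra.FiniteType ℤ D] {m : ℕ}
    (hpos : ∀ (A : Type u) [CommRing A] (c : ℕ), c ≠ 0 → (c : A) = 0 →
      ∀ ρ : Γ →* GL (Fin m) A, Finite ρ.range)
    (ρ : Γ →* GL (Fin m) D) (γ : Γ) :
    IsAlgebraic ℤ (ρ γ : Matrix (Fin m) (Fin m) D).trace := by
  classical
  by_contra htr
  set t : D := (ρ γ : Matrix (Fin m) (Fin m) D).trace with ht
  have hinj : Function.Injective (Polynomial.aeval t : ℤ[X] →ₐ[ℤ] D) :=
    transcendental_iff_injective.1 htr
  -- the function field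
  let algPD : Algebra ℤ[X] D := (Polynomial.aeval t : ℤ[X] →ₐ[ℤ] D).toRingHom.toAlgebra
  have hPD : ∀ q : ℤ[X], algebraMap ℤ[X] D q = Polynomial.aeval t q := fun q => rfl
  have htower : IsScalarTower ℤ ℤ[X] D := IsScalarTower.of_algebraMap_eq (fun x => by
    rw [hPD, ← Polynomial.C_eq_algebraMap, Polynomial.aeval_C])
  have hft : Algebra.FiniteType ℤ[X] D :=
    Algebra.FiniteType.of_restrictScalars_finiteType ℤ ℤ[X] D
  let F := FractionRing ℤ[X]
  let E := F ⊗[ℤ[X]] D
  have hnt : Nontrivial E := Algebra.TensorProduct.nontrivial_of_algebraMap_injective_of_isDomain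
    ℤ[X] F D (IsFractionRing.injective ℤ[X] F) hinj
  have hftE : Algebra.FiniteType F E := inferInstance
  obtain ⟨M, hM⟩ := Ideal.exists_maximal E
  let L := E ⧸ M
  let fieldL : Field L := Ideal.Quotient.field M
  have hftL : Algebra.FiniteType F L := inferInstance
  have hfinL : Module.Finite F L := finite_of_finite_type_of_isJacobsonRing F L
  have halg1 : Algebra.IsAlgebraic ℤ[X] F := IsLocalization.isAlgebraic F (nonZeroDivisors ℤ[X])
  have halg2 : Algebra.IsAlgebraic F L := inferInstance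
  have htow2 : IsScalarTower ℤ[X] F L := inferInstance
  have halg : Algebra.IsAlgebraic ℤ[X] L := Algebra.IsAlgebraic.trans ℤ[X] F L
  have hinjL : Function.Injective (algebraMap ℤ[X] L) := by
    rw [IsScalarTower.algebraMap_eq ℤ[X] F L]
    exact (algebraMap F L).injective.comp (IsFractionRing.injective ℤ[X] F)
  let j : D →+* L := (Ideal.Quotient.mk M).comp
    (Algebra.TensorProduct.includeRight : D →ₐ[ℤ[X]] F ⊗[ℤ[X]] D).toRingHom
  have hjt : j t = algebraMap ℤ[X] L Polynomial.X := by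
    have h1 : algebraMap ℤ[X] D Polynomial.X = t := by rw [hPD, Polynomial.aeval_X]
    have h2 : (Algebra.TensorProduct.includeRight : D →ₐ[ℤ[X]] F ⊗[ℤ[X]] D) t =
        algebraMap ℤ[X] E Polynomial.X := by
      rw [← h1]
      exact AlgHom.commutes _ _
    change (Ideal.Quotient.mk M)
      ((Algebra.TensorProduct.includeRight : D →ₐ[ℤ[X]] F ⊗[ℤ[X]] D) t) = _
    rw [h2]
    rfl
  -- the representation over `L`
  let ρL : Γ →* GL (Fin m) L := (GeneralLinearGroup.map j).comp ρ
  refine step2 hinjL hpos ρL γ ?_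
  rw [← hjt, ht, Matrix.trace, Matrix.trace, map_sum]
  rfl

end Pool.Agent.TH567.PR
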